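import Pool.Agent.Q169.FT.Stm

set_option autoImplicit false

namespace Pool.Agent.Q169.FT

section

variable {E : ℕ → Type} {bd : ∀ i, E (i + 1) → (E i →₀ ℤ)}

theorem Inh.sub {A : ∀ i, Set (E i)} (h : Inh bd A) : IsSub bd A := by
  induction h with
  | base => exact fun _ _ _ _ _ => trivial
  | face cs h hR I ih =>
    intro i e f he hf
    exact ⟨hR.sub i e f he.1 hf, he.2.trans (hR.face i e he.1 f hf)⟩
  | retract h hr ih => exact hr.sub
  | inter h₁ h₂ h ih₁ ih₂ ih =>
    exact fun i e f he hf => ⟨ih₁ i e f he.1 hf, ih₂ i e f he.2 hf⟩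

/-- the cells of `C` which are in the walls with index in `I` and in a wall with index in `J` -/
def D {T : Type} (C : ∀ i, Set (E i)) (mir : ∀ i, E i → Set T) (I J : Set T) : ∀ i, Set (E i) :=
  fun i => {e | e ∈ C i ∧ I ⊆ mir i e ∧ (mir i e ∩ J).Nonempty}

theorem sub_D {T : Type} {C : ∀ i, Set (E i)} {mir : ∀ i, E i → Set T} (hC : IsSub bd C)
    (hm : ∀ i, ∀ e ∈ C (i + 1), ∀ f, bd i e f ≠ 0 → mir (i + 1) e ⊆ mir i f) (I J : Set T) :
    IsSub bd (D C mir I J) := fun i e f he hf =>
  ⟨hC i e f he.1 hf, he.2.1.trans (hm i e he.1 f hf),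
    he.2.2.mono (Set.inter_subset_inter_left J (hm i e he.1 f hf))⟩

end

theorem face (hs : S_SEQ) (hm : S_MV) (hr : S_RETR) (hf : S_REFL) : S_FACE := by
  intro E bd hG hU A hA
  induction hA with
  | base => exact hU
  | retract h hr' ih => exact hr E bd _ _ _ _ h.sub hr' ih
  | inter h₁ h₂ h ih₁ ih₂ ih => exact hm E bd hG _ _ h₁.sub h₂.sub ih₁ ih₂ ih
  | @face T M K _ cs B C mir κ h hR I ih =>
    have hrel := hf E bd T M K cs B C mir κ hR ih
    have hC : ExS bd C := by
      have h0 := hrel ∅
      have e : un C mir (∅ : Set T) = fun _ => ∅ := by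
        funext i
        refine Set.eq_empty_of_forall_notMem fun e he => ?_
        obtain ⟨x, hx⟩ := he.2
        exact hx.2
      rw [e] at h0
      exact h0
    have : Finite K := hR.finite
    have hT : Finite T := Finite.of_injective cs.simple fun a b hab =>
      Q27.Cox.simple_inj cs hab
    have key : ∀ I : Set T, I.Finite → ∀ J : Set T, ExS bd (D C mir I J) := by
      intro I hI
      induction I, hI using Set.Finite.induction_on with
      | empty =>
        intro J
        have e : D C mir ∅ J = un C mir J := by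
          funext i
          ext e
          exact ⟨fun h => ⟨h.1, h.2.2⟩, fun h => ⟨h.1, Set.empty_subset _, h.2⟩⟩
        rw [e]
        refine hs E bd hG C _ hR.sub ?_ (fun i e he => he.1) hC (hrel J)
        rw [← e]
        exact sub_D hR.sub hR.face _ _
      | @insert s I _ _ ihI =>
        intro J
        have e : D C mir (insert s I) J = fun i => D C mir I {s} i ∩ D C mir I J i := by
          funext i
          ext e
          constructor
          · rintro ⟨h1, h2, h3⟩
            rw [Set.insert_subset_iff] at h2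
            exact ⟨⟨h1, h2.2, ⟨s, h2.1, rfl⟩⟩, ⟨h1, h2.2, h3⟩⟩
          · rintro ⟨⟨h1, h2, x, h3, h4⟩, ⟨_, _, h5⟩⟩
            rw [Set.mem_singleton_iff] at h4
            rw [h4] at h3
            exact ⟨h1, Set.insert_subset_iff.2 ⟨h3, h2⟩, h5⟩
        rw [e]
        refine hm E bd hG _ _ (sub_D hR.sub hR.face _ _) (sub_D hR.sub hR.face _ _) (ihI {s})
          (ihI J) ?_
        have e' : (fun i => D C mir I {s} i ∪ D C mir I J i) = D C mir I (insert s J) := by
          funext i
          ext e
          constructor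
          · rintro (⟨h1, h2, x, h3, h4⟩ | ⟨h1, h2, x, h3, h4⟩)
            · rw [Set.mem_singleton_iff] at h4
              exact ⟨h1, h2, x, h3, Or.inl h4⟩
            · exact ⟨h1, h2, x, h3, Or.inr h4⟩
          · rintro ⟨h1, h2, x, h3, h4⟩
            rcases h4 with h4 | h4
            · exact Or.inl ⟨h1, h2, x, h3, h4⟩
            · exact Or.inr ⟨h1, h2, x, h3, h4⟩
        rw [e']
        exact ihI _
    by_cases hI : I = ∅
    · have e : fc C mir I = C := by
        funext i
        ext e
        exact ⟨fun h => h.1, fun h => ⟨h, by rw [hI]; exact Set.empty_subset _⟩⟩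
      rw [e]
      exact hC
    · obtain ⟨s, hs'⟩ := Set.nonempty_iff_ne_empty.2 hI
      have e : fc C mir I = D C mir I {s} := by
        funext i
        ext e
        exact ⟨fun h => ⟨h.1, h.2, ⟨s, h.2 hs', rfl⟩⟩, fun h => ⟨h.1, h.2.1⟩⟩
      rw [e]
      exact key I (Set.toFinite I) _

end Pool.Agent.Q169.FT
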