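import Pool.Agent.Q169.FT.Final
import Pool.Agent.TH38.ZT.Fol

set_option autoImplicit false

namespace Pool.Agent.Q169.FT.PD

open Pool.Agent.H919R4.ZS (FinRes toRed)
open Pool.Agent.H919R4.AS (ringZ permZ cobdZ coboundariesZ cohomologyZ)
open Pool.Agent.TH38.ZT (ExAt exAt_iff)
open Pool.Agent.TH38.CX (AcyclicGComplex)

noncomputable section

variable {N : Type} [Group N]

lemma ringZ_single (C : Subgroup N) (h : N) (a : ℤ) (x : N ⧸ C) (r : ℤ) :
    ringZ N (N ⧸ C) (MonoidAlgebra.single h a) (Finsupp.single x r) =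
      Finsupp.single (h • x) (a * r) := by
  change (MonoidAlgebra.liftNC _ _ _ : AddMonoid.End (N ⧸ C →₀ ℤ)) _ = _
  rw [MonoidAlgebra.liftNC_single]
  change (((a : ℤ) : AddMonoid.End (N ⧸ C →₀ ℤ)) * permZ N (N ⧸ C) h) (Finsupp.single x r) = _
  rw [← zsmul_eq_mul]
  change a • (Finsupp.mapDomain (fun z : N ⧸ C => h • z) (Finsupp.single x r)) = _
  rw [Finsupp.mapDomain_single, Finsupp.smul_single, smul_eq_mul]

lemma ringZ_apply (C : Subgroup N) (m : MonoidAlgebra ℤ N) (x : N ⧸ C) (r : ℤ) :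
    ringZ N (N ⧸ C) m (Finsupp.single x r) =
      m.coeff.sum fun h a => Finsupp.single (h • x) (a * r) := by
  induction m using MonoidAlgebra.induction_linear with
  | zero => simp
  | add a b ha hb =>
    rw [map_add]
    change ringZ N (N ⧸ C) a _ + ringZ N (N ⧸ C) b _ = _
    rw [ha, hb, MonoidAlgebra.coeff_add,
      Finsupp.sum_add_index' (by simp) (by
        intro h a b
        rw [add_mul, Finsupp.single_add])]
  | single h a =>
    rw [ringZ_single, MonoidAlgebra.coeff_single, Finsupp.sum_single_index (by simp)]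

variable {E : ℕ → Type} {X : FinRes N} (ψ : ∀ i, E i ≃ N × Fin (X.n i))

/-- the transfer to the permutation module -/
def P (C : Subgroup N) (i : ℕ) : (E i →₀ ℤ) →+ (Fin (X.n i) → (N ⧸ C →₀ ℤ)) :=
  Finsupp.liftAddHom fun e => (AddMonoidHom.single _ (ψ i e).2).comp
    (Finsupp.singleAddHom (QuotientGroup.mk ((ψ i e).1⁻¹) : N ⧸ C))

lemma P_single (C : Subgroup N) (i : ℕ) (e : E i) (r : ℤ) :
    P ψ C i (Finsupp.single e r) =
      Pi.single (ψ i e).2 (Finsupp.single (QuotientGroup.mk ((ψ i e).1⁻¹) : N ⧸ C) r) := by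
  simp [P]

/-- the coboundary -/
def dl (i : ℕ) : (E i →₀ ℤ) →+ (E (i + 1) →₀ ℤ) :=
  Finsupp.liftAddHom fun f => ∑ k : Fin (X.n (i + 1)),
    (Finsupp.mapDomain.addMonoidHom (fun h : N => (ψ (i + 1)).symm ((ψ i f).1 * h⁻¹, k))).comp
      ((AddMonoidHom.flip (smulAddHom ℤ (N →₀ ℤ))) (X.d i k (ψ i f).2).coeff)

lemma dl_single (i : ℕ) (f : E i) (r : ℤ) :
    dl ψ i (Finsupp.single f r) = ∑ k : Fin (X.n (i + 1)),
      Finsupp.mapDomain (fun h : N => (ψ (i + 1)).symm ((ψ i f).1 * h⁻¹, k))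
        (r • (X.d i k (ψ i f).2).coeff) := by
  simp [dl, AddMonoidHom.finsetSum_apply]

lemma cobd_P (C : Subgroup N) (i : ℕ) (z : E i →₀ ℤ) :
    cobdZ X (N ⧸ C) i (P ψ C i z) = P ψ C (i + 1) (dl ψ i z) := by
  induction z using Finsupp.induction_linear with
  | zero => simp
  | add a b ha hb => rw [map_add, map_add, map_add, map_add, ha, hb]
  | single f r =>
    rw [P_single, dl_single, map_sum]
    have h1 : ∀ k : Fin (X.n (i + 1)),
        P ψ C (i + 1) (Finsupp.mapDomain
          (fun h : N => (ψ (i + 1)).symm ((ψ i f).1 * h⁻¹, k)) (r • (X.d i k (ψ i f).2).coeff)) =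
        Pi.single k (ringZ N (N ⧸ C) (X.d i k (ψ i f).2)
          (Finsupp.single (QuotientGroup.mk ((ψ i f).1⁻¹) : N ⧸ C) r)) := by
      intro k
      rw [ringZ_apply]
      generalize (X.d i k (ψ i f).2).coeff = m
      induction m using Finsupp.induction_linear with
      | zero => simp
      | add a b ha hb =>
        rw [smul_add, Finsupp.mapDomain_add, map_add, ha, hb,
          Finsupp.sum_add_index' (by simp) (by
            intro h a b
            rw [add_mul, Finsupp.single_add]), Pi.single_add]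
      | single h a =>
        rw [Finsupp.smul_single, Finsupp.mapDomain_single, P_single,
          Finsupp.sum_single_index (by simp), Equiv.apply_symm_apply]
        congr 1
        rw [smul_eq_mul, mul_comm r a]
        congr 1
        rw [mul_inv_rev, inv_inv]
        rfl
    rw [Finset.sum_congr rfl fun k _ => h1 k]
    funext k
    rw [Finset.sum_apply]
    change ∑ j, ringZ N (N ⧸ C) (X.d i k j) _ = _
    rw [Finset.sum_eq_single (ψ i f).2, Finset.sum_eq_single k]
    · rw [Pi.single_eq_same, Pi.single_eq_same]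
    · intro j _ hj
      rw [Pi.single_eq_of_ne hj.symm]
    · intro h
      exact absurd (Finset.mem_univ _) h
    · intro j _ hj
      rw [Pi.single_eq_of_ne hj, map_zero]
    · intro h
      exact absurd (Finset.mem_univ _) h

/-- the section of the transfer -/
def Q (C : Subgroup N) (i : ℕ) : (Fin (X.n i) → (N ⧸ C →₀ ℤ)) →+ (E i →₀ ℤ) where
  toFun y := ∑ j, (y j).mapDomain fun x => (ψ i).symm ((Quotient.out x)⁻¹, j)
  map_zero' := by simp
  map_add' x y := by
    rw [← Finset.sum_add_distrib]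
    exact Finset.sum_congr rfl fun j _ => by rw [Pi.add_apply, Finsupp.mapDomain_add]

lemma P_Q (C : Subgroup N) (i : ℕ) (y : Fin (X.n i) → (N ⧸ C →₀ ℤ)) :
    P ψ C i (Q ψ C i y) = y := by
  change P ψ C i (∑ j, (y j).mapDomain fun x => (ψ i).symm ((Quotient.out x)⁻¹, j)) = y
  rw [map_sum]
  have h1 : ∀ j, P ψ C i ((y j).mapDomain fun x => (ψ i).symm ((Quotient.out x)⁻¹, j)) =
      Pi.single j (y j) := by
    intro j
    generalize y j = m
    induction m using Finsupp.induction_linear with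
    | zero => simp
    | add a b ha hb => rw [Finsupp.mapDomain_add, map_add, ha, hb, Pi.single_add]
    | single x r =>
      rw [Finsupp.mapDomain_single, P_single, Equiv.apply_symm_apply]
      congr 1
      rw [inv_inv]
      congr 1
      exact Quotient.out_eq x
  rw [Finset.sum_congr rfl fun j _ => h1 j, Finset.univ_sum_single]

/-- translation -/
def T [∀ i, MulAction N (E i)] (i : ℕ) (t : N) : (E i →₀ ℤ) →+ (E i →₀ ℤ) :=
  Finsupp.mapDomain.addMonoidHom (fun e : E i => t • e)

section act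

variable [∀ i, MulAction N (E i)]

lemma T_apply (i : ℕ) (t : N) (z : E i →₀ ℤ) : T i t z = z.mapDomain (fun e => t • e) := rfl

lemma T_mul (i : ℕ) (s t : N) (z : E i →₀ ℤ) : T i s (T i t z) = T i (s * t) z := by
  rw [T_apply, T_apply, T_apply, ← Finsupp.mapDomain_comp]
  congr 1
  funext e
  exact (mul_smul s t e).symm

lemma T_one (i : ℕ) (z : E i →₀ ℤ) : T i (1 : N) z = z := by
  rw [T_apply]
  simp only [one_smul]
  exact Finsupp.mapDomain_id

lemma T_pow (i : ℕ) (t : N) (k : ℤ) (z : E i →₀ ℤ) : ∃ w, T i (t ^ k) z - z = T i t w - w := by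
  have hn : ∀ (k : ℕ) (z : E i →₀ ℤ), ∃ w, T i (t ^ k) z - z = T i t w - w := by
    intro k
    induction k with
    | zero => intro z; exact ⟨0, by rw [pow_zero, T_one]; simp⟩
    | succ k ih =>
      intro z
      obtain ⟨w, hw⟩ := ih z
      refine ⟨T i (t ^ k) z + w, ?_⟩
      rw [pow_succ', ← T_mul, map_add]
      linear_combination (norm := module) hw
  obtain ⟨n, rfl | rfl⟩ := k.eq_nat_or_neg
  · rw [zpow_natCast]; exact hn n z
  · obtain ⟨w, hw⟩ := hn n (T i (t ^ (-(n : ℤ))) z)
    refine ⟨-w, ?_⟩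
    have h1 : T i (t ^ n) (T i (t ^ (-(n : ℤ))) z) = z := by
      rw [T_mul, zpow_neg, zpow_natCast, mul_inv_cancel, T_one]
    rw [h1] at hw
    rw [map_neg]
    linear_combination (norm := module) -hw

lemma ker_P (hψ : ∀ i (n : N) (e : E i), ψ i (n • e) = (n * (ψ i e).1, (ψ i e).2)) (t : N) (i : ℕ)
    (z : E i →₀ ℤ) : ∃ w, z - Q ψ (Subgroup.zpowers t) i (P ψ (Subgroup.zpowers t) i z) =
      T i t w - w := by
  induction z using Finsupp.induction_linear with
  | zero => exact ⟨0, by simp⟩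
  | add a b ha hb =>
    obtain ⟨v, hv⟩ := ha
    obtain ⟨w, hw⟩ := hb
    refine ⟨v + w, ?_⟩
    rw [map_add, map_add, map_add]
    linear_combination (norm := module) hv + hw
  | single e r =>
    have h1 : Q ψ (Subgroup.zpowers t) i (P ψ (Subgroup.zpowers t) i (Finsupp.single e r)) =
        Finsupp.single ((ψ i).symm ((Quotient.out
          (QuotientGroup.mk ((ψ i e).1⁻¹) : N ⧸ Subgroup.zpowers t))⁻¹, (ψ i e).2)) r := by
      rw [P_single]
      unfold Q
      rw [AddMonoidHom.coe_mk, ZeroHom.coe_mk]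
      rw [Finset.sum_eq_single (ψ i e).2, Pi.single_eq_same, Finsupp.mapDomain_single]
      · intro j _ hj
        rw [Pi.single_eq_of_ne hj, Finsupp.mapDomain_zero]
      · intro h
        exact absurd (Finset.mem_univ _) h
    obtain ⟨k, hk⟩ : ∃ k : ℤ, (Quotient.out
          (QuotientGroup.mk ((ψ i e).1⁻¹) : N ⧸ Subgroup.zpowers t))⁻¹ = t ^ k * (ψ i e).1 := by
      have h2 : (QuotientGroup.mk (Quotient.out
          (QuotientGroup.mk ((ψ i e).1⁻¹) : N ⧸ Subgroup.zpowers t)) : N ⧸ Subgroup.zpowers t) =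
          QuotientGroup.mk ((ψ i e).1⁻¹) := Quotient.out_eq _
      rw [QuotientGroup.eq] at h2
      obtain ⟨k, hk⟩ := h2
      refine ⟨k, ?_⟩
      change t ^ k = _ at hk
      rw [hk]
      group
    have h3 : (ψ i).symm ((Quotient.out
          (QuotientGroup.mk ((ψ i e).1⁻¹) : N ⧸ Subgroup.zpowers t))⁻¹, (ψ i e).2) =
          t ^ k • e := by
      rw [Equiv.symm_apply_eq, hψ, hk]
    rw [h1, h3]
    obtain ⟨w, hw⟩ := T_pow i t k (Finsupp.single e r)
    refine ⟨-w, ?_⟩
    rw [T_apply, Finsupp.mapDomain_single] at hw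
    rw [map_neg]
    linear_combination (norm := module) -hw

lemma P_T (hψ : ∀ i (n : N) (e : E i), ψ i (n • e) = (n * (ψ i e).1, (ψ i e).2)) (t : N) (i : ℕ)
    (z : E i →₀ ℤ) : P ψ (Subgroup.zpowers t) i (T i t z) = P ψ (Subgroup.zpowers t) i z := by
  induction z using Finsupp.induction_linear with
  | zero => simp
  | add a b ha hb => rw [map_add, map_add, map_add, ha, hb]
  | single e r =>
    rw [T_apply, Finsupp.mapDomain_single, P_single, P_single, hψ]
    congr 2
    rw [QuotientGroup.eq]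
    refine ⟨1, ?_⟩
    change t ^ (1 : ℤ) = _
    rw [zpow_one]
    group

lemma eq_zero_of_T (hfree : ∀ i (n : N) (e : E i), n • e = e → n = 1) (t : N)
    (ht : ¬ IsOfFinOrder t) (i : ℕ) (u : E i →₀ ℤ) (hu : T i t u = u) : u = 0 := by
  classical
  by_contra hne
  obtain ⟨e, he⟩ := Finsupp.ne_iff.1 hne
  rw [Finsupp.zero_apply] at he
  have h1 : ∀ k : ℕ, u (t ^ k • e) = u e := by
    intro k
    induction k with
    | zero => rw [pow_zero, one_smul]
    | succ k ih =>
      rw [pow_succ', mul_smul]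
      conv_lhs => rw [← hu]
      rw [T_apply, Finsupp.mapDomain_apply (MulAction.injective t), ih]
  have h2 : Function.Injective fun k : ℕ => t ^ k • e := by
    intro a b hab
    have h3 : (t ^ b)⁻¹ * t ^ a = 1 := by
      apply hfree i _ e
      change t ^ a • e = t ^ b • e at hab
      rw [mul_smul, hab, inv_smul_smul]
    have h4 : t ^ a = t ^ b := by
      rw [inv_mul_eq_one] at h3
      exact h3.symm
    exact (injective_pow_iff_not_isOfFinOrder.2 ht) h4
  have h3 : Set.Infinite (u.support : Set (E i)) := by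
    refine Set.infinite_of_injective_forall_mem h2 fun k => ?_
    rw [Finset.mem_coe, Finsupp.mem_support_iff, h1]
    exact he
  exact h3 u.support.finite_toSet

end act

section cx

variable (V : AcyclicGComplex N) (φ : ∀ i, V.E i ≃ N × Fin (X.n i))
  (hφ : ∀ i (n : N) (e : V.E i), φ i (n • e) = (n * (φ i e).1, (φ i e).2))
  (hb : ∀ i (e : V.E (i + 1)) (f : V.E i), (V.bd i (Finsupp.single e 1)) f =
        (X.d i (φ (i + 1) e).2 (φ i f).2).coeff ((φ (i + 1) e).1⁻¹ * (φ i f).1))

include hb in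
lemma dl_apply (i : ℕ) (z : V.E i →₀ ℤ) (e : V.E (i + 1)) :
    dl φ i z e = (V.bd i (Finsupp.single e 1)).sum fun f n => n * z f := by
  classical
  induction z using Finsupp.induction_linear with
  | zero => simp
  | add a b ha hb =>
    rw [map_add, Finsupp.add_apply, ha, hb, ← Finsupp.sum_add]
    exact Finsupp.sum_congr fun f _ => by rw [Finsupp.add_apply, mul_add]
  | single f r =>
    rw [dl_single, Finsupp.finsetSum_apply]
    have h1 : ∀ k : Fin (X.n (i + 1)),
        (Finsupp.mapDomain (fun h : N => (φ (i + 1)).symm ((φ i f).1 * h⁻¹, k))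
          (r • (X.d i k (φ i f).2).coeff)) e =
        if k = (φ (i + 1) e).2 then r * (V.bd i (Finsupp.single e 1)) f else 0 := by
      intro k
      split_ifs with hk
      · have h2 : e = (fun h : N => (φ (i + 1)).symm ((φ i f).1 * h⁻¹, k))
            ((φ (i + 1) e).1⁻¹ * (φ i f).1) := by
          change e = (φ (i + 1)).symm _
          rw [Equiv.eq_symm_apply, hk]
          ext
          · change (φ (i + 1) e).1 = (φ i f).1 * ((φ (i + 1) e).1⁻¹ * (φ i f).1)⁻¹
            group
          · rfl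
        conv_lhs => rw [h2]
        rw [Finsupp.mapDomain_apply, Finsupp.smul_apply, hb, hk, smul_eq_mul]
        intro a b hab
        have h3 := (φ (i + 1)).symm.injective hab
        rw [Prod.mk.injEq] at h3
        exact inv_injective (mul_left_cancel h3.1)
      · apply Finsupp.mapDomain_of_notMem_range
        rintro ⟨h, hh⟩
        apply hk
        rw [← hh]
        simp
    rw [Finset.sum_congr rfl fun k _ => h1 k, Finset.sum_ite_eq' Finset.univ, if_pos (Finset.mem_univ _)]
    by_cases hf : f ∈ (V.bd i (Finsupp.single e 1)).support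
    · rw [Finsupp.sum, Finset.sum_eq_single f, Finsupp.single_eq_same, mul_comm]
      · intro g _ hg
        rw [Finsupp.single_eq_of_ne hg, mul_zero]
      · intro h
        exact absurd hf h
    · rw [Finsupp.notMem_support_iff.1 hf, mul_zero, Finsupp.sum, Finset.sum_eq_zero]
      intro g hg
      rw [Finsupp.single_eq_of_ne (by rintro rfl; exact hf hg), mul_zero]

include hb in
lemma dl_dl (i : ℕ) (z : V.E i →₀ ℤ) : dl φ (i + 1) (dl φ i z) = 0 := by
  have h1 : ∀ x : V.E (i + 1) →₀ ℤ, (x.sum fun f n => n * dl φ i z f) =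
      (V.bd i x).sum fun f n => n * z f := by
    intro x
    induction x using Finsupp.induction_linear with
    | zero => simp
    | add a b ha hb' =>
      rw [map_add, Finsupp.sum_add_index' (by simp) (fun _ _ _ => add_mul _ _ _),
        Finsupp.sum_add_index' (by simp) (fun _ _ _ => add_mul _ _ _), ha, hb']
    | single e r =>
      rw [Finsupp.sum_single_index (by simp), dl_apply V φ hb]
      have h2 : Finsupp.single e r = r • Finsupp.single e (1 : ℤ) := by
        rw [Finsupp.smul_single, smul_eq_mul, mul_one]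
      rw [h2, map_zsmul, Finsupp.sum_smul_index (by simp), Finsupp.mul_sum]
      exact Finsupp.sum_congr fun f _ => (mul_assoc _ _ _).symm
  ext e
  rw [dl_apply V φ hb, h1, (V.exact_succ i _).2 ⟨_, rfl⟩]
  simp

include hb in
lemma dl_T (i : ℕ) (t : N) (z : V.E i →₀ ℤ) : dl φ i (T i t z) = T (i + 1) t (dl φ i z) := by
  ext e
  rw [dl_apply V φ hb, T_apply, sum_smul, T_apply, smul_apply', dl_apply V φ hb]

include hb in
lemma isCb_iff (i : ℕ) (z : V.E (i + 1) →₀ ℤ) : IsCb V (i + 1) z ↔ ∃ y, dl φ i y = z := by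
  constructor
  · rintro ⟨y, hy⟩
    refine ⟨y, ?_⟩
    ext e
    rw [dl_apply V φ hb, hy]
  · rintro ⟨y, rfl⟩
    exact ⟨y, fun e => dl_apply V φ hb i y e⟩

end cx

open Pool.Agent.H919R4.ZS (van_of_homology infinite_of_van)

lemma exact_coset (X : FinRes N) (t : N) (hG : Infinite (N ⧸ Subgroup.zpowers t))
    (hs : ∀ i, Subsingleton (X.homology (toRed N) i)) (k : ℕ) (hk : k ≤ 2)
    (z : Fin (X.n k) → (N ⧸ Subgroup.zpowers t →₀ ℤ)) (hz : cobdZ X (N ⧸ Subgroup.zpowers t) k z = 0) :
    z ∈ coboundariesZ X (N ⧸ Subgroup.zpowers t) k := by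
  have h1 := Pool.Agent.H919R4.AS.coset X (Pool.Agent.TH38.ZT.amenable_zpowers t) hG
    (fun i _ => hs i) k hk
  rw [QuotientAddGroup.subsingleton_iff, AddSubgroup.addSubgroupOf_eq_top] at h1
  exact h1 hz

/-- JOB PDA -/
theorem pda (hr : Pool.Agent.Q169.ZD.S_RES) : S_PDA := by
  intro N _ V hf c rep hrep d hd h X'
  obtain ⟨X, φ, hφ, hb⟩ := hr N V hf c rep hrep
  by_contra hcon
  push Not at hcon
  have hs : ∀ i, Subsingleton (X.homology (toRed N) i) := fun i =>
    (exAt_iff X (toRed N) i).1 (Pool.Agent.TH38.ZT.ex_indep X' X (toRed N) i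
      ((exAt_iff X' (toRed N) i).2 (hcon i)))
  have hN : Infinite N := infinite_of_van X (van_of_homology X (hs 0) (hs 1) (hs 2))
  have hG : Infinite (N ⧸ Subgroup.zpowers (1 : N)) := by
    rw [Subgroup.zpowers_one_eq_bot]
    exact Infinite.of_injective (fun g : N => (QuotientGroup.mk g : N ⧸ (⊥ : Subgroup N)))
      (fun a b hab => by
        have := QuotientGroup.eq.1 hab
        rw [Subgroup.mem_bot] at this
        exact (inv_mul_eq_one.1 this))
  obtain ⟨z₀, hz, hu⟩ := h
  have hnb : ¬ IsCb V d z₀ := by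
    intro hcb
    obtain ⟨n, -, hn⟩ := hu z₀ hz
    have h0 : (0 : ℤ) = n := hn 0 (by simpa using hcb)
    have h1 : (1 : ℤ) = n := hn 1 (by
      change IsCb V d (z₀ - (1 : ℤ) • z₀)
      rw [one_zsmul, sub_self]
      simpa using cb_zsmul V d 0 hcb)
    omega
  apply hnb
  have hcl : dl φ d z₀ = 0 := by
    ext e
    rw [dl_apply V φ hb]
    exact hz e
  have h1 := exact_coset X 1 hG hs d hd (P φ (Subgroup.zpowers 1) d z₀) (by
    rw [cobd_P, hcl, map_zero])
  have hker : ∀ z : V.E d →₀ ℤ, P φ (Subgroup.zpowers (1 : N)) d z = 0 → z = 0 := by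
    intro z hz
    obtain ⟨w, hw⟩ := ker_P φ hφ (1 : N) d z
    rw [hz, map_zero, sub_zero, T_one, sub_self] at hw
    exact hw
  cases d with
  | zero =>
    change P φ (Subgroup.zpowers (1 : N)) 0 z₀ ∈ (⊥ : AddSubgroup _) at h1
    rw [AddSubgroup.mem_bot] at h1
    exact hker z₀ h1
  | succ d =>
    obtain ⟨x, hx⟩ := h1
    rw [isCb_iff V φ hb]
    refine ⟨Q φ (Subgroup.zpowers (1 : N)) d x, ?_⟩
    rw [← sub_eq_zero]
    apply hker
    rw [map_sub, ← cobd_P, P_Q, hx, sub_self]

/-- JOB PDB -/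
theorem pdb (hr : Pool.Agent.Q169.ZD.S_RES) : S_PDB := by
  intro N _ V hf c rep hrep z₀ t ht hG hnb hcb X'
  obtain ⟨X, φ, hφ, hb⟩ := hr N V hf c rep hrep
  by_contra hcon
  push Not at hcon
  have hs : ∀ i, Subsingleton (X.homology (toRed N) i) := fun i =>
    (exAt_iff X (toRed N) i).1 (Pool.Agent.TH38.ZT.ex_indep X' X (toRed N) i
      ((exAt_iff X' (toRed N) i).2 (hcon i)))
  obtain ⟨y, hy⟩ := (isCb_iff V φ hb 2 _).1 hcb
  rw [← T_apply] at hy
  obtain ⟨x, hx⟩ := exact_coset X t hG hs 2 le_rfl (P φ (Subgroup.zpowers t) 2 y) (by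
    rw [cobd_P, hy, map_sub, P_T φ hφ, sub_self])
  obtain ⟨w, hw⟩ := ker_P φ hφ t 2 (y - dl φ 1 (Q φ (Subgroup.zpowers t) 1 x))
  rw [map_sub (P φ (Subgroup.zpowers t) 2), ← cobd_P, P_Q, hx, sub_self, map_zero, sub_zero] at hw
  have h1 := congrArg (dl φ 2) hw
  rw [map_sub, map_sub, dl_dl V φ hb, dl_T V φ hb, hy, sub_zero] at h1
  have h2 : z₀ - dl φ 2 w = 0 := by
    apply eq_zero_of_T hf t ht
    rw [map_sub]
    linear_combination (norm := module) h1
  exact hnb ((isCb_iff V φ hb 2 _).2 ⟨w, (sub_eq_zero.1 h2).symm⟩)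

end

end Pool.Agent.Q169.FT.PD
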