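import Pool.Agent.Q169.FT.Stm

set_option autoImplicit false

namespace Pool.Agent.Q169.FT

open scoped ENNReal Classical
open Pool.Agent.Q169.ZD (par)

theorem summable_fst {α K : Type} [Finite K] (G : α → ℝ) (h0 : ∀ a, 0 ≤ G a) (h : Summable G) :
    Summable fun p : α × K => G p.1 := by
  have : Fintype K := Fintype.ofFinite K
  have h3 : Summable fun p : K × α => G p.2 := by
    refine (summable_prod_of_nonneg ?_).2 ⟨fun _ => h, (hasSum_fintype _).summable⟩
    intro p
    exact h0 _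
  exact h3.comp_injective (Equiv.prodComm α K).injective

theorem summable_ext {α : Type} (S : Set α) (F : α → ℝ) (hF : ∀ x, x ∉ S → F x = 0)
    (h : Summable fun x : S => F x) : Summable F := by
  have h5 : Summable (F ∘ (Subtype.val : S → α)) := h
  rw [summable_subtype_iff_indicator] at h5
  refine h5.congr fun x => ?_
  by_cases hx : x ∈ S
  · rw [Set.indicator_of_mem hx]
  · rw [Set.indicator_of_notMem hx, hF x hx]

section

variable {E : ℕ → Type} {bd : ∀ i, E (i + 1) → (E i →₀ ℤ)} {T : Type} {M : CoxeterMatrix T}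
  {K : Type} [Group K] {cs : CoxeterSystem M K} {B C : ∀ i, Set (E i)} {mir : ∀ i, E i → Set T}
  {κ : ∀ i, E i → K → E i} (hR : Refl bd cs B C mir κ)

theorem par_inter (J : Set T) {u : K} (h : u ∈ par cs J) (h' : u ∈ par cs Jᶜ) : u = 1 := by
  have h1 := (Q27.Cox.mem_P_iff (cs := cs)).1 (show u ∈ Q27.Cox.P cs J from h)
  have h2 := (Q27.Cox.mem_P_iff (cs := cs)).1 (show u ∈ Q27.Cox.P cs Jᶜ from h')
  have h3 : Q27.Cox.supp cs u ⊆ (∅ : Set T) := fun x hx => (h2 hx) (h1 hx)
  have h4 := (Q27.Cox.mem_P_iff (cs := cs)).2 h3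
  change u ∈ Subgroup.closure _ at h4
  simpa using h4

/-- the extension of a cochain -/
noncomputable def Phi (cs : CoxeterSystem M K) (C : ∀ i, Set (E i)) (κ : ∀ i, E i → K → E i)
    (J : Set T) (i : ℕ) (c : E i → ℂ) : E i → ℂ := fun x =>
  if h : ∃ p : E i × K, p.1 ∈ C i ∧ κ i p.1 p.2 = x then
    (if h.choose.2 ∈ par cs Jᶜ then c h.choose.1 else 0) else 0

include hR

theorem Phi_apply (J : Set T) (i : ℕ) (c : E i → ℂ) (hc : ∀ e ∈ un C mir J i, c e = 0) (e : E i)
    (he : e ∈ C i) (w : K) : Phi cs C κ J i c (κ i e w) = if w ∈ par cs Jᶜ then c e else 0 := by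
  have h : ∃ p : E i × K, p.1 ∈ C i ∧ κ i p.1 p.2 = κ i e w := ⟨(e, w), he, rfl⟩
  unfold Phi
  rw [dif_pos h]
  have h0 := h.choose_spec
  generalize h.choose = p at h0 ⊢
  obtain ⟨e', w'⟩ := p
  obtain ⟨h1, h2⟩ := h0
  change e' ∈ C i at h1
  change κ i e' w' = κ i e w at h2
  change (if w' ∈ par cs Jᶜ then c e' else 0) = _
  rw [hR.inj i _ h1 e he] at h2
  obtain ⟨rfl, h2⟩ := h2
  by_cases hm : (mir i e' ∩ J).Nonempty
  · rw [hc e' ⟨he, hm⟩]
    split_ifs <;> rfl
  · have h3 : mir i e' ⊆ Jᶜ := fun x hx hx' => hm ⟨x, hx, hx'⟩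
    have h4 : w'⁻¹ * w ∈ par cs Jᶜ :=
      Subgroup.closure_mono (Set.image_mono h3) h2
    have h5 : w' ∈ par cs Jᶜ ↔ w ∈ par cs Jᶜ := by
      constructor
      · intro h6
        have := mul_mem h6 h4
        rwa [mul_inv_cancel_left] at this
      · intro h6
        have := mul_mem h6 (inv_mem h4)
        rwa [mul_inv_rev, inv_inv, mul_inv_cancel_left] at this
    by_cases h6 : w ∈ par cs Jᶜ
    · rw [if_pos h6, if_pos (h5.2 h6)]
    · rw [if_neg h6, if_neg fun h7 => h6 (h5.1 h7)]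

theorem Phi_mem (J : Set T) (i : ℕ) (c : E i → ℂ) (hc : Memℓp c 2) :
    Memℓp (Phi cs C κ J i c) 2 := by
  have : Finite K := hR.finite
  have h2 : 0 < (2 : ℝ≥0∞).toReal := by norm_num
  refine memℓp_gen ?_
  have hs2 := summable_fst (K := K) _ (fun a => Real.rpow_nonneg (norm_nonneg _) _)
    (hc.summable h2)
  let S : Set (E i) := {x | ∃ p : E i × K, p.1 ∈ C i ∧ κ i p.1 p.2 = x}
  let g : S → E i × K := fun x => x.2.choose
  have hg : Function.Injective g := by
    intro x y hxy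
    have hx := x.2.choose_spec.2
    have hy := y.2.choose_spec.2
    apply Subtype.ext
    rw [← hx, ← hy]
    exact congrArg (fun p : E i × K => κ i p.1 p.2) hxy
  have h4 := hs2.comp_injective hg
  refine summable_ext S _ (fun x hx => ?_) ?_
  · have : Phi cs C κ J i c x = 0 := by
      unfold Phi
      exact dif_neg hx
    rw [this, norm_zero, Real.zero_rpow h2.ne']
  · refine Summable.of_nonneg_of_le (fun x => Real.rpow_nonneg (norm_nonneg _) _)
      (fun x => ?_) h4
    refine Real.rpow_le_rpow (norm_nonneg _) ?_ h2.le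
    have hx : ∃ p : E i × K, p.1 ∈ C i ∧ κ i p.1 p.2 = (x : E i) := x.2
    have e1 : Phi cs C κ J i c x = if hx.choose.2 ∈ par cs Jᶜ then c hx.choose.1 else 0 :=
      dif_pos hx
    rw [e1]
    split_ifs
    · exact le_rfl
    · rw [norm_zero]; exact norm_nonneg _

theorem Phi_cob (J : Set T) (i : ℕ) (c : E i → ℂ) (hc : ∀ e ∈ un C mir J i, c e = 0)
    (hcl : ∀ e ∈ C (i + 1), cob bd i c e = 0) :
    ∀ x ∈ B (i + 1), cob bd i (Phi cs C κ J i c) x = 0 := by
  intro x hx
  obtain ⟨e, he, w, rfl⟩ := hR.surj (i + 1) x hx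
  unfold cob
  rw [hR.bd_smul i e he w, Finsupp.sum_mapDomain_index (fun _ => by simp)
    (fun _ _ _ => by push_cast; ring)]
  have h := hcl e he
  unfold cob at h
  by_cases hw : w ∈ par cs Jᶜ
  · rw [← h]
    refine Finsupp.sum_congr fun f hf => ?_
    rw [Phi_apply hR J i c hc f (hR.sub i e f he (Finsupp.mem_support_iff.1 hf)), if_pos hw]
  · rw [Finsupp.sum, Finset.sum_eq_zero]
    intro f hf
    rw [Phi_apply hR J i c hc f (hR.sub i e f he (Finsupp.mem_support_iff.1 hf)), if_neg hw,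
      mul_zero]

/-- the function `g` -/
noncomputable def gg (cs : CoxeterSystem M K) (J : Set T) (u : K) : ℂ :=
  if u ∈ par cs J then (-1) ^ cs.length u else 0

omit hR in
theorem gg_mul (J : Set T) (u : K) (s : T) (hs : s ∈ J) :
    gg cs J (u * cs.simple s) = - gg cs J u := by
  have h1 : cs.simple s ∈ par cs J := Subgroup.subset_closure ⟨s, hs, rfl⟩
  unfold gg
  by_cases hu : u ∈ par cs J
  · rw [if_pos hu, if_pos (mul_mem hu h1)]
    rcases cs.length_mul_simple u s with h | h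
    · rw [h, pow_succ]; ring
    · rw [← h, pow_succ]; ring
  · rw [if_neg hu, if_neg, neg_zero]
    intro h
    exact hu (by simpa using mul_mem h h1)

/-- the restriction -/
noncomputable def Psi (cs : CoxeterSystem M K) (C : ∀ i, Set (E i)) (κ : ∀ i, E i → K → E i)
    (J : Set T) [Fintype K] (i : ℕ) (b : E i → ℂ) : E i → ℂ := fun e =>
  ∑ u : K, gg cs J u * (if e ∈ C i then b (κ i e u) else 0)

theorem Psi_mem (J : Set T) [Fintype K] (i : ℕ) (b : E i → ℂ) (hb : Memℓp b 2) :
    Memℓp (Psi cs C κ J i b) 2 := by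
  have h2 : 0 < (2 : ℝ≥0∞).toReal := by norm_num
  have key : ∀ u : K, Memℓp (fun e => if e ∈ C i then b (κ i e u) else 0) 2 := by
    intro u
    refine memℓp_gen ?_
    have hinj : Function.Injective (fun e : C i => κ i e u) := by
      intro e e' h
      exact Subtype.ext ((hR.inj i _ e.2 _ e'.2 u u).1 h).1
    have h3 := (hb.summable h2).comp_injective hinj
    refine summable_ext (C i) _ (fun e he => ?_) ?_
    · rw [if_neg he, norm_zero, Real.zero_rpow h2.ne']
    · refine h3.congr fun e => ?_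
      rw [Function.comp_apply, if_pos e.2]
  have := Memℓp.finsetSum (p := 2) (Finset.univ : Finset K)
    (f := fun u e => gg cs J u * (if e ∈ C i then b (κ i e u) else 0))
    fun u _ => (key u).const_mul (gg cs J u)
  refine this

theorem Psi_zero (J : Set T) [Fintype K] (i : ℕ) (b : E i → ℂ) :
    ∀ e ∈ un C mir J i, Psi cs C κ J i b e = 0 := by
  rintro e ⟨he, s, hs, hsJ⟩
  have h1 : ∀ u : K, κ i e (u * cs.simple s) = κ i e u := by
    intro u
    rw [hR.inj i e he e he]
    refine ⟨rfl, ?_⟩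
    rw [mul_inv_rev, mul_assoc, inv_mul_cancel, mul_one]
    exact inv_mem (Subgroup.subset_closure ⟨s, hs, rfl⟩)
  have h2 : Psi cs C κ J i b e = - Psi cs C κ J i b e := by
    conv_lhs => rw [Psi]
    rw [← Equiv.sum_comp (Equiv.mulRight (cs.simple s)), Psi, ← Finset.sum_neg_distrib]
    refine Finset.sum_congr rfl fun u _ => ?_
    rw [Equiv.coe_mulRight, gg_mul J u s hsJ, h1]
    ring
  exact self_eq_neg.1 h2

theorem Psi_cob (J : Set T) [Fintype K] (i : ℕ) (b : E i → ℂ) (e : E (i + 1))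
    (he : e ∈ C (i + 1)) :
    cob bd i (Psi cs C κ J i b) e = ∑ u : K, gg cs J u * cob bd i b (κ (i + 1) e u) := by
  have h1 : ∀ u, cob bd i b (κ (i + 1) e u) =
      ∑ f ∈ (bd i e).support, ((bd i e f : ℤ) : ℂ) * b (κ i f u) := by
    intro u
    unfold cob
    rw [hR.bd_smul i e he u, Finsupp.sum_mapDomain_index (fun _ => by simp)
      (fun _ _ _ => by push_cast; ring)]
    rfl
  simp only [h1]
  unfold cob
  rw [Finsupp.sum]
  simp only [Finset.mul_sum]
  rw [Finset.sum_comm]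
  refine Finset.sum_congr rfl fun f hf => ?_
  rw [Psi, Finset.mul_sum]
  refine Finset.sum_congr rfl fun u _ => ?_
  rw [if_pos (hR.sub i e f he (Finsupp.mem_support_iff.1 hf))]
  ring

theorem Psi_Phi (J : Set T) [Fintype K] (i : ℕ) (c : E i → ℂ) (hc : ∀ e ∈ un C mir J i, c e = 0)
    (e : E i) (he : e ∈ C i) : ∑ u : K, gg cs J u * Phi cs C κ J i c (κ i e u) = c e := by
  rw [Finset.sum_eq_single 1]
  · rw [Phi_apply hR J i c hc e he, if_pos (one_mem _), gg, if_pos (one_mem _), cs.length_one]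
    simp
  · intro u _ hu
    rw [Phi_apply hR J i c hc e he, gg]
    by_cases h1 : u ∈ par cs J
    · rw [if_neg (c := u ∈ par cs Jᶜ) fun h2 => hu (par_inter J h1 h2), mul_zero]
    · rw [if_neg h1, zero_mul]
  · intro h
    exact absurd (Finset.mem_univ _) h

end

theorem refl : S_REFL := by
  intro E bd T M K _ cs B C mir κ hR hB J
  have : Finite K := hR.finite
  have : Fintype K := Fintype.ofFinite K
  constructor
  · intro c hc hc0 hcl e he
    have h := hB.1 _ (Phi_mem hR J 0 c hc) (fun _ h => h.elim) (Phi_cob hR J 0 c hc0 hcl)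
      (κ 0 e 1) (hR.mem 0 e he 1)
    rwa [Phi_apply hR J 0 c hc0 e he, if_pos (one_mem _)] at h
  · intro i c hc hc0 hcl
    obtain ⟨b, hb, -, h⟩ := hB.2 i _ (Phi_mem hR J (i + 1) c hc) (fun _ h => h.elim)
      (Phi_cob hR J (i + 1) c hc0 hcl)
    refine ⟨Psi cs C κ J i b, Psi_mem hR J i b hb, Psi_zero hR J i b, fun e he => ?_⟩
    rw [Psi_cob hR J i b e he, ← Psi_Phi hR J (i + 1) c hc0 e he]
    refine Finset.sum_congr rfl fun u _ => ?_
    rw [h _ (hR.mem (i + 1) e he u)]

end Pool.Agent.Q169.FT
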