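import Pool.Agent.Q169.FT.Stm

set_option autoImplicit false

namespace Pool.Agent.Q169.FT

open scoped ENNReal

section

variable {E : ℕ → Type} (bd : ∀ i, E (i + 1) → (E i →₀ ℤ))

theorem cob_congr (i : ℕ) (c c' : E i → ℂ) (e : E (i + 1)) (h : ∀ f, bd i e f ≠ 0 → c f = c' f) :
    cob bd i c e = cob bd i c' e := by
  refine Finsupp.sum_congr fun f hf => ?_
  rw [h f (Finsupp.mem_support_iff.1 hf)]

theorem cob_sub (i : ℕ) (c c' : E i → ℂ) (e : E (i + 1)) :
    cob bd i (fun f => c f - c' f) e = cob bd i c e - cob bd i c' e := by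
  unfold cob
  rw [← Finsupp.sum_sub]
  exact Finsupp.sum_congr fun f _ => mul_sub _ _ _

theorem cob_zero (i : ℕ) (e : E (i + 1)) : cob bd i (fun _ => 0) e = 0 := by
  unfold cob
  simp

/-- restriction of a function to a set -/
theorem memlp_ind {α : Type} (A : Set α) [DecidablePred (· ∈ A)] {c : α → ℂ} (h : Memℓp c 2) :
    Memℓp (fun e => if e ∈ A then c e else 0) 2 := by
  refine memℓp_gen ?_
  have h2 := h.summable (by norm_num : 0 < (2 : ℝ≥0∞).toReal)
  refine Summable.of_nonneg_of_le (fun e => by positivity) (fun e => ?_) h2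
  split_ifs
  · exact le_rfl
  · rw [norm_zero, Real.zero_rpow (by norm_num)]
    positivity

theorem memlp_sub {α : Type} {c c' : α → ℂ} (h : Memℓp c 2) (h' : Memℓp c' 2) :
    Memℓp (fun e => c e - c' e) 2 := Memℓp.sub h h'

end

open scoped Classical in
theorem seq : S_SEQ := by
  intro E bd hG A B hA hB hBA hSA hP
  have key : ∀ (i : ℕ) (c : E i → ℂ), Memℓp c 2 → (∀ e ∈ B (i + 1), cob bd i c e = 0) →
      ∃ b : E i → ℂ, Memℓp b 2 ∧ (∀ e ∈ B i, b e = 0) ∧
        ∀ e ∈ A (i + 1), cob bd i (fun e => (if e ∈ B i then c e else 0) - b e) e = 0 := by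
    intro i c hc hcl
    have hc1 := memlp_ind (B i) hc
    have hd := memlp_ind (A (i + 1)) (hG.mem i _ hc1)
    obtain ⟨b, hb, hb0, hb1⟩ := hP.2 i
      (fun e => if e ∈ A (i + 1) then cob bd i (fun e => if e ∈ B i then c e else 0) e else 0)
      hd (by
        intro e he
        simp only [if_pos (hBA (i + 1) he)]
        rw [cob_congr bd i _ c e fun f hf => if_pos (hB i e f he hf)]
        exact hcl e he) (by
        intro e he
        rw [cob_congr bd (i + 1) _ (cob bd i (fun e => if e ∈ B i then c e else 0)) e fun f hf =>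
          if_pos (hA (i + 1) e f he hf)]
        exact congrFun (hG.sq i _) e)
    refine ⟨b, hb, hb0, fun e he => ?_⟩
    rw [cob_sub, ← hb1 e he, if_pos he, sub_self]
  constructor
  · intro c hc _ hcl e he
    obtain ⟨b, hb, hb0, hb1⟩ := key 0 c hc hcl
    have h := hSA.1 _ (memlp_sub (memlp_ind (B 0) hc) hb) (fun _ h => h.elim) hb1 e (hBA 0 he)
    simp only [if_pos he, hb0 e he, sub_zero] at h
    exact h
  · intro i c hc _ hcl
    obtain ⟨b, hb, hb0, hb1⟩ := key (i + 1) c hc hcl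
    obtain ⟨c', hc', -, h⟩ := hSA.2 i _ (memlp_sub (memlp_ind (B (i + 1)) hc) hb)
      (fun _ h => h.elim) hb1
    refine ⟨c', hc', fun _ h => h.elim, fun e he => ?_⟩
    have h := h e (hBA (i + 1) he)
    simp only [if_pos he, hb0 e he, sub_zero] at h
    exact h

open scoped Classical in
theorem mv : S_MV := by
  intro E bd hG A₁ A₂ hA₁ hA₂ h₁ h₂ h₃
  have key : ∀ (i : ℕ) (c : E i → ℂ), Memℓp c 2 →
      (∀ e, e ∈ A₁ (i + 1) → e ∈ A₂ (i + 1) → cob bd i c e = 0) →
      ∃ b : E i → ℂ, Memℓp b 2 ∧ (∀ e ∈ A₂ (i + 1), cob bd i b e = 0) ∧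
        ∀ e ∈ A₁ (i + 1), cob bd i b e =
          cob bd i (fun e => if e ∈ A₁ i ∩ A₂ i then c e else 0) e := by
    intro i c hc hcl
    have hc1 := memlp_ind (A₁ i ∩ A₂ i) hc
    have hd := memlp_ind (A₁ (i + 1)) (hG.mem i _ hc1)
    have hd2 : ∀ e ∈ A₂ (i + 1), (if e ∈ A₁ (i + 1) then
        cob bd i (fun e => if e ∈ A₁ i ∩ A₂ i then c e else 0) e else 0) = 0 := by
      intro e he
      split_ifs with h
      · rw [cob_congr bd i _ c e fun f hf => if_pos ⟨hA₁ i e f h hf, hA₂ i e f he hf⟩]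
        exact hcl e h he
      · rfl
    obtain ⟨b, hb, -, hb1⟩ := h₃.2 i _ hd (fun _ h => h.elim) (by
      intro e he
      rcases he with he | he
      · rw [cob_congr bd (i + 1) _
          (cob bd i (fun e => if e ∈ A₁ i ∩ A₂ i then c e else 0)) e fun f hf =>
            if_pos (hA₁ (i + 1) e f he hf)]
        exact congrFun (hG.sq i _) e
      · rw [cob_congr bd (i + 1) _ (fun _ => 0) e fun f hf => hd2 f (hA₂ (i + 1) e f he hf)]
        exact cob_zero bd (i + 1) e)
    refine ⟨b, hb, fun e he => ?_, fun e he => ?_⟩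
    · rw [← hb1 e (Or.inr he)]
      exact hd2 e he
    · rw [← hb1 e (Or.inl he), if_pos he]
  constructor
  · intro c hc _ hcl e he
    obtain ⟨b, hb, hb2, hb1⟩ := key 0 c hc fun e h h' => hcl e ⟨h, h'⟩
    have h0 := h₂.1 b hb (fun _ h => h.elim) hb2 e he.2
    have h := h₁.1 _ (memlp_sub (memlp_ind (A₁ 0 ∩ A₂ 0) hc) hb) (fun _ h => h.elim) (fun e he => by
      rw [cob_sub, hb1 e he, sub_self]) e he.1
    simp only [if_pos he, h0, sub_zero] at h
    exact h
  · intro i c hc _ hcl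
    obtain ⟨b, hb, hb2, hb1⟩ := key (i + 1) c hc fun e h h' => hcl e ⟨h, h'⟩
    obtain ⟨a, ha, -, ha1⟩ := h₂.2 i b hb (fun _ h => h.elim) hb2
    have hb' := memlp_sub hb (hG.mem i a ha)
    obtain ⟨c', hc', -, h⟩ := h₁.2 i _
      (memlp_sub (memlp_ind (A₁ (i + 1) ∩ A₂ (i + 1)) hc) hb') (fun _ h => h.elim) (fun e he => by
        rw [cob_sub, cob_sub, hb1 e he]
        have : cob bd (i + 1) (fun f => cob bd i a f) e = 0 := congrFun (hG.sq i a) e
        rw [this]
        ring)
    refine ⟨c', hc', fun _ h => h.elim, fun e he => ?_⟩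
    have h := h e he.1
    simp only [if_pos he, ← ha1 e he.2, sub_self, sub_zero] at h
    exact h

end Pool.Agent.Q169.FT
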