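import Pool.Agent.Q169.FT.Final
import Pool.Agent.Q169.FT.PD
import Pool.Agent.Q169.FT.Seq
import Pool.Agent.Q169.FT.Refl
import Pool.Agent.Q169.FT.Face
import Pool.Agent.Q111.FT.Gap
import Pool.Agent.Q111.FT.Good
import Pool.Agent.Q111.FT.Schur
import Pool.Agent.Q111.FT.ConvB
import Pool.Agent.Q224.ZD.Res
import Pool.Agent.Q241.ZD.Ltwo
import Pool.Agent.Q146.FT.Amen

set_option autoImplicit false

namespace Pool.Agent.Q169.FT

open Pool.Agent.H919R4.ZS (FinRes toRed)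
open Pool.Agent.TH38.CX (AcyclicGComplex)

theorem all
    {N : Type} [Group N] (U : AcyclicGComplex N)
    (hU : ∀ i (n : N) (e : U.E i), n • e = e → n = 1)
    (c : ℕ → ℕ) (rep : ∀ i, Fin (c i) → U.E i)
    (hrep : ∀ i (e : U.E i), ∃! a, e ∈ MulAction.orbit N (rep i a))
    {L : Type} [Group L] (V : AcyclicGComplex L)
    (hV : ∀ i (n : L) (e : V.E i), n • e = e → n = 1) (htf : ∀ g : L, IsOfFinOrder g → g = 1)
    (c' : ℕ → ℕ) (rep' : ∀ i, Fin (c' i) → V.E i)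
    (hrep' : ∀ i (e : V.E i), ∃! a, e ∈ MulAction.orbit L (rep' i a))
    (ι : ∀ i, V.E i → U.E i) (hι : ∀ i, Function.Injective (ι i))
    (hbd : ∀ i (e : V.E (i + 1)), U.bd i (Finsupp.single (ι (i + 1) e) 1) =
      (V.bd i (Finsupp.single e 1)).mapDomain (ι i))
    (hinh : Inh (fun i (e : U.E (i + 1)) => U.bd i (Finsupp.single e 1))
      (fun i => Set.range (ι i)))
    (h : (∃ (Y : FinRes L) (i : ℕ), Nontrivial (Y.homology (toRed L) i)) ∨ ∃ d ≤ 3, HcZ V d)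
    (X : FinRes N) : ∃ i, Nontrivial (X.homology (toRed N) i) :=
  have hres := Pool.Agent.Q224.ZD.res
  have hM := Pool.Agent.Q146.FT.amen
  final' (Pool.Agent.Q241.ZD.ltwo hres) Pool.Agent.Q111.FT.good
    (face seq mv Pool.Agent.Q111.FT.retr refl) Pool.Agent.Q111.FT.trans
    (Pool.Agent.Q111.FT.conv hres Pool.Agent.Q111.FT.gap Pool.Agent.Q111.FT.neu)
    (PD.pda hres) (PD.pdb hres) hM hres U hU c rep hrep V hV htf c' rep' hrep' ι hι hbd hinh h X

end Pool.Agent.Q169.FT
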