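import Pool.Agent.Q169.FT.Stm

set_option autoImplicit false

namespace Pool.Agent.Q169.FT

open Pool.Agent.H919R4.ZS (FinRes toRed)
open Pool.Agent.TH38.ZT (ExAt exAt_iff)
open Pool.Agent.TH38.CX (AcyclicGComplex)
open Pool.Agent.Q169.ZD (par L2Ex S_LTWO)

section

variable {L : Type} [Group L] (V : AcyclicGComplex L)

theorem cb_add (d : ℕ) {x y : V.E d →₀ ℤ} (hx : IsCb V d x) (hy : IsCb V d y) :
    IsCb V d (x + y) := by
  cases d with
  | zero =>
    change x = 0 at hx
    change y = 0 at hy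
    change x + y = 0
    rw [hx, hy, add_zero]
  | succ d =>
    obtain ⟨a, ha⟩ := hx
    obtain ⟨b, hb⟩ := hy
    refine ⟨a + b, fun e => ?_⟩
    rw [Finsupp.add_apply, ha, hb, ← Finsupp.sum_add]
    exact Finsupp.sum_congr fun f _ => by rw [Finsupp.add_apply, mul_add]

theorem cb_zsmul (d : ℕ) (n : ℤ) {x : V.E d →₀ ℤ} (hx : IsCb V d x) : IsCb V d (n • x) := by
  cases d with
  | zero =>
    change x = 0 at hx
    change n • x = 0
    rw [hx, smul_zero]
  | succ d =>
    obtain ⟨a, ha⟩ := hx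
    refine ⟨n • a, fun e => ?_⟩
    rw [Finsupp.smul_apply, ha, smul_eq_mul, Finsupp.mul_sum]
    exact Finsupp.sum_congr fun f _ => by rw [Finsupp.smul_apply, smul_eq_mul]; ring

theorem cb_sub (d : ℕ) {x y : V.E d →₀ ℤ} (hx : IsCb V d x) (hy : IsCb V d y) :
    IsCb V d (x - y) := by
  have := cb_add V d hx (cb_zsmul V d (-1) hy)
  rwa [neg_one_zsmul, ← sub_eq_add_neg] at this

/-- the sum over the translated boundary -/
theorem sum_smul (d : ℕ) (g : L) (e : V.E (d + 1)) (y : V.E d →₀ ℤ) :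
    ((V.bd d (Finsupp.single e 1)).sum fun f n => n * (y.mapDomain (fun e => g • e)) f) =
      (V.bd d (Finsupp.single (g⁻¹ • e) 1)).sum fun f n => n * y f := by
  have h1 : V.bd d (Finsupp.single e 1) =
      (V.bd d (Finsupp.single (g⁻¹ • e) 1)).mapDomain (fun e => g • e) := by
    rw [← V.bd_smul, Finsupp.mapDomain_single, smul_inv_smul]
  rw [h1, Finsupp.sum_mapDomain_index (fun _ => zero_mul _) (fun _ _ _ => add_mul _ _ _)]
  refine Finsupp.sum_congr fun f _ => ?_
  rw [Finsupp.mapDomain_apply (MulAction.injective g)]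

theorem smul_apply' (d : ℕ) (g : L) (e : V.E d) (z : V.E d →₀ ℤ) :
    (z.mapDomain (fun e => g • e)) e = z (g⁻¹ • e) := by
  conv_lhs => rw [← smul_inv_smul g e]
  exact Finsupp.mapDomain_apply (MulAction.injective g) z (g⁻¹ • e)

theorem co_smul (d : ℕ) (g : L) {z : V.E d →₀ ℤ} (hz : IsCo V d z) :
    IsCo V d (z.mapDomain (fun e => g • e)) := by
  intro e
  rw [sum_smul]
  exact hz _

theorem cb_smul (d : ℕ) (g : L) {z : V.E d →₀ ℤ} (hz : IsCb V d z) :
    IsCb V d (z.mapDomain (fun e => g • e)) := by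
  cases d with
  | zero =>
    change z = 0 at hz
    change z.mapDomain _ = 0
    rw [hz, Finsupp.mapDomain_zero]
  | succ d =>
    obtain ⟨y, hy⟩ := hz
    refine ⟨y.mapDomain (fun e => g • e), fun e => ?_⟩
    rw [smul_apply', hy, sum_smul]

theorem mp_sub (d : ℕ) (g : L) (x y : V.E d →₀ ℤ) :
    (x - y).mapDomain (fun e => g • e) =
      x.mapDomain (fun e => g • e) - y.mapDomain (fun e => g • e) :=
  _root_.map_sub (Finsupp.mapDomain.addMonoidHom (fun e : V.E d => g • e)) x y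

theorem mp_zsmul (d : ℕ) (g : L) (n : ℤ) (x : V.E d →₀ ℤ) :
    (n • x).mapDomain (fun e => g • e) = n • x.mapDomain (fun e => g • e) :=
  _root_.map_zsmul (Finsupp.mapDomain.addMonoidHom (fun e : V.E d => g • e)) n x

theorem mp_map (d : ℕ) (g h : L) (x : V.E d →₀ ℤ) :
    (x.mapDomain (fun e => h • e)).mapDomain (fun e => g • e) =
      x.mapDomain (fun e => (g * h) • e) := by
  rw [← Finsupp.mapDomain_comp]
  congr 1
  funext e
  exact (mul_smul g h e).symm

/-- an element of the form `g * g` acts trivially on an infinite cyclic group -/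
theorem exists_sq (d : ℕ) (h : HcZ V d) (g : L) :
    ∃ z₀ : V.E d →₀ ℤ, ¬ IsCb V d z₀ ∧
      IsCb V d (z₀.mapDomain (fun e => (g * g) • e) - z₀) := by
  obtain ⟨z₀, hz, hu⟩ := h
  have hnb : ¬ IsCb V d z₀ := by
    intro hcb
    obtain ⟨n, -, hn⟩ := hu z₀ hz
    have h0 : (0 : ℤ) = n := hn 0 (by simpa using hcb)
    have h1 : (1 : ℤ) = n := hn 1 (by
      change IsCb V d (z₀ - (1 : ℤ) • z₀)
      rw [one_zsmul, sub_self]
      simpa using cb_zsmul V d 0 hcb)
    omega
  refine ⟨z₀, hnb, ?_⟩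
  obtain ⟨n, hn, -⟩ := hu _ (co_smul V d g hz)
  obtain ⟨m, hm, -⟩ := hu _ (co_smul V d g⁻¹ hz)
  change IsCb V d (z₀.mapDomain (fun e => g • e) - n • z₀) at hn
  change IsCb V d (z₀.mapDomain (fun e => g⁻¹ • e) - m • z₀) at hm
  -- n * m = 1
  have h1 : IsCb V d (z₀ - (m * n) • z₀) := by
    have a := cb_smul V d g hm
    rw [mp_sub, mp_map, mp_zsmul, mul_inv_cancel] at a
    have e1 : z₀.mapDomain (fun e => (1 : L) • e) = z₀ := by
      simp only [one_smul]
      exact Finsupp.mapDomain_id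
    rw [e1] at a
    have b := cb_add V d a (cb_zsmul V d m hn)
    rw [smul_sub, sub_add_sub_cancel, ← mul_smul] at b
    exact b
  obtain ⟨k, -, hk⟩ := hu z₀ hz
  have h2 : m * n = 1 := by
    have a : m * n = k := hk _ h1
    have b : (1 : ℤ) = k := hk 1 (by
      change IsCb V d (z₀ - (1 : ℤ) • z₀)
      rw [one_zsmul, sub_self]
      simpa using cb_zsmul V d 0 h1)
    omega
  have h3 : n * n = 1 := by
    rcases Int.isUnit_iff.1 (IsUnit.of_mul_eq_one_right m h2) with h | h <;> rw [h] <;> norm_num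
  have a := cb_smul V d g hn
  rw [mp_sub, mp_map, mp_zsmul] at a
  have b := cb_add V d a (cb_zsmul V d n hn)
  rw [smul_sub, sub_add_sub_cancel, ← mul_smul, h3, one_smul] at b
  exact b

end

theorem pd (hA : S_PDA) (hB : S_PDB) (hM : S_AMEN) {L : Type} [Group L] (V : AcyclicGComplex L)
    (hf : ∀ i (n : L) (e : V.E i), n • e = e → n = 1) (htf : ∀ g : L, IsOfFinOrder g → g = 1)
    (c : ℕ → ℕ) (rep : ∀ i, Fin (c i) → V.E i)
    (hrep : ∀ i (e : V.E i), ∃! a, e ∈ MulAction.orbit L (rep i a)) (d : ℕ) (hd : d ≤ 3)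
    (h : HcZ V d) (X : FinRes L) : ∃ i, Nontrivial (X.homology (toRed L) i) := by
  by_cases h2 : d ≤ 2
  · exact hA L V hf c rep hrep d h2 h X
  obtain rfl : d = 3 := by omega
  by_cases h1 : ∃ g : L, g ≠ 1
  · obtain ⟨g, hg⟩ := h1
    have hinf : ¬ IsOfFinOrder (g * g) := by
      intro hh
      apply hg
      apply htf
      rw [← pow_two] at hh
      exact (isOfFinOrder_pow.1 hh).resolve_right two_ne_zero
    obtain ⟨z₀, hz, hz'⟩ := exists_sq V 3 h g
    by_cases hfin : Finite (L ⧸ Subgroup.zpowers (g * g))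
    · exact hM L (g * g) hfin X
    · rw [not_finite_iff_infinite] at hfin
      exact hB L V hf c rep hrep z₀ (g * g) hinf hfin hz hz' X
  · push Not at h1
    have : Subsingleton L := ⟨fun a b => by rw [h1 a, h1 b]⟩
    exact hM L 1 inferInstance X

theorem final' (hl : S_LTWO) (hg : S_GOOD) (hface : S_FACE) (ht : S_TRANS) (hc : S_CONV)
    (hA : S_PDA) (hB : S_PDB) (hM : S_AMEN) (hres : Pool.Agent.Q169.ZD.S_RES)
    {N : Type} [Group N] (U : AcyclicGComplex N)
    (hU : ∀ i (n : N) (e : U.E i), n • e = e → n = 1)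
    (c : ℕ → ℕ) (rep : ∀ i, Fin (c i) → U.E i)
    (hrep : ∀ i (e : U.E i), ∃! a, e ∈ MulAction.orbit N (rep i a))
    {L : Type} [Group L] (V : AcyclicGComplex L)
    (hV : ∀ i (n : L) (e : V.E i), n • e = e → n = 1) (htf : ∀ g : L, IsOfFinOrder g → g = 1)
    (c' : ℕ → ℕ) (rep' : ∀ i, Fin (c' i) → V.E i)
    (hrep' : ∀ i (e : V.E i), ∃! a, e ∈ MulAction.orbit L (rep' i a))
    (ι : ∀ i, V.E i → U.E i) (hι : ∀ i, Function.Injective (ι i))
    (hbd : ∀ i (e : V.E (i + 1)), U.bd i (Finsupp.single (ι (i + 1) e) 1) =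
      (V.bd i (Finsupp.single e 1)).mapDomain (ι i))
    (hinh : Inh (fun i (e : U.E (i + 1)) => U.bd i (Finsupp.single e 1))
      (fun i => Set.range (ι i)))
    (h : (∃ (Y : FinRes L) (i : ℕ), Nontrivial (Y.homology (toRed L) i)) ∨ ∃ d ≤ 3, HcZ V d)
    (X : FinRes N) : ∃ i, Nontrivial (X.homology (toRed N) i) := by
  by_contra hcon
  push Not at hcon
  have hex : ∀ i, ExAt X (toRed N) i := fun i =>
    (exAt_iff X (toRed N) i).2 (not_nontrivial_iff_subsingleton.1 (by simpa using hcon i))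
  have h1 := hl N U hU c rep hrep X hex
  have h2 : ExS (fun i (e : U.E (i + 1)) => U.bd i (Finsupp.single e 1))
      (fun _ => Set.univ) := by
    refine ⟨fun c hc _ h e _ => ?_, fun i c hc _ h => ?_⟩
    · rw [h1.1 c hc fun e => h e trivial]
      rfl
    · obtain ⟨c', hc', h3⟩ := h1.2 i c hc fun e => h e trivial
      exact ⟨c', hc', fun e he => he.elim, fun e _ => h3 e⟩
  have h3 := hface U.E _ (hg N U hU c rep hrep) h2 _ hinh
  have h4 := ht N L U V ι hι hbd h3
  have h5 := hc L V hV c' rep' hrep' h4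
  have h6 : ∃ (Y : FinRes L) (i : ℕ), Nontrivial (Y.homology (toRed L) i) := by
    rcases h with h | ⟨d, hd, h⟩
    · exact h
    · obtain ⟨Y, -⟩ := hres L V hV c' rep' hrep'
      exact ⟨Y, pd hA hB hM V hV htf c' rep' hrep' d hd h Y⟩
  obtain ⟨Y, i, hY⟩ := h6
  exact not_nontrivial_iff_subsingleton.2 ((exAt_iff Y (toRed L) i).1 (h5 Y i)) hY

end Pool.Agent.Q169.FT
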