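import Pool.Agent.Q169.ZD.Stm2
import Pool.Agent.H919R4.AS.Final

/-!
# Project FT: zero in the spectrum and folding

`E i` is the set of the `i`-cells of a cell complex, `bd i e` the boundary of the cell
`e : E (i + 1)`. Subcomplexes are families `A : ∀ i, Set (E i)`. Cochains of `A` are functions on
all of `E i`; only their values on `A i` matter.

Jobs: GOOD, SEQ, MV, RETR, REFL, FACE, TRANS, GAP, NEU, CONV, PDA, PDB.
-/

set_option autoImplicit false

namespace Pool.Agent.Q169.FT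

open Pool.Agent.H919R4.ZS (FinRes toRed)
open Pool.Agent.TH38.ZT (ExAt)
open Pool.Agent.TH38.CX (AcyclicGComplex)
open Pool.Agent.Q169.ZD (par L2Ex)

noncomputable section

/-! ### Subcomplexes, square summable cochains -/

section cells

variable {E : ℕ → Type} (bd : ∀ i, E (i + 1) → (E i →₀ ℤ))

/-- The coboundary of a cochain `c`: `(δ c) (e) = c (∂ e)`. -/
def cob (i : ℕ) (c : E i → ℂ) : E (i + 1) → ℂ :=
  fun e => (bd i e).sum fun f n => ((n : ℤ) : ℂ) * c f

/-- `A` is a subcomplex: the faces of the cells of `A` are in `A`. -/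
def IsSub (A : ∀ i, Set (E i)) : Prop :=
  ∀ (i : ℕ) (e : E (i + 1)) (f : E i), e ∈ A (i + 1) → bd i e f ≠ 0 → f ∈ A i

/-- The complex of square summable cochains of `A` which vanish on `B` is exact. -/
def ExP (A B : ∀ i, Set (E i)) : Prop :=
  (∀ c : E 0 → ℂ, Memℓp c 2 → (∀ e ∈ B 0, c e = 0) → (∀ e ∈ A 1, cob bd 0 c e = 0) →
    ∀ e ∈ A 0, c e = 0) ∧
  ∀ (i : ℕ) (c : E (i + 1) → ℂ), Memℓp c 2 → (∀ e ∈ B (i + 1), c e = 0) →
    (∀ e ∈ A (i + 2), cob bd (i + 1) c e = 0) →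
    ∃ c' : E i → ℂ, Memℓp c' 2 ∧ (∀ e ∈ B i, c' e = 0) ∧ ∀ e ∈ A (i + 1), c e = cob bd i c' e

/-- The complex of square summable cochains of `A` is exact. -/
def ExS (A : ∀ i, Set (E i)) : Prop := ExP bd A (fun _ => ∅)

/-- `δ δ = 0`, and `δ` maps square summable cochains to square summable cochains. -/
structure Good : Prop where
  sq : ∀ (i : ℕ) (c : E i → ℂ), cob bd (i + 1) (cob bd i c) = 0
  mem : ∀ (i : ℕ) (c : E i → ℂ), Memℓp c 2 → Memℓp (cob bd i c) 2

/-- The finite reflection group `K` (with the Coxeter system `cs`) acts on the subcomplex `B`, with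
the subcomplex `C` as fundamental chamber: `κ i e w = w e`, and `mir i e` is the set of the
(indices of the) walls of the chamber `C` which contain the cell `e` of `C`. Every cell of `B` is of
the form `w e` with a unique cell `e` of `C`, and the stabiliser of `e` is generated by the
reflections in the walls which contain `e`. -/
structure Refl {T : Type} {M : CoxeterMatrix T} {K : Type} [Group K] (cs : CoxeterSystem M K)
    (B C : ∀ i, Set (E i)) (mir : ∀ i, E i → Set T) (κ : ∀ i, E i → K → E i) : Prop where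
  finite : Finite K
  sub : IsSub bd C
  one : ∀ i, ∀ e ∈ C i, κ i e 1 = e
  mem : ∀ i, ∀ e ∈ C i, ∀ w, κ i e w ∈ B i
  surj : ∀ i, ∀ x ∈ B i, ∃ e ∈ C i, ∃ w, κ i e w = x
  inj : ∀ i, ∀ e ∈ C i, ∀ e' ∈ C i, ∀ w w' : K,
    κ i e w = κ i e' w' ↔ e = e' ∧ w⁻¹ * w' ∈ par cs (mir i e)
  face : ∀ i, ∀ e ∈ C (i + 1), ∀ f, bd i e f ≠ 0 → mir (i + 1) e ⊆ mir i f
  bd_smul : ∀ i, ∀ e ∈ C (i + 1), ∀ w,
    bd i (κ (i + 1) e w) = (bd i e).mapDomain (fun f => κ i f w)

/-- The face of the chamber `C` which is the intersection of the walls with index in `I`; the fixed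
set of `K` for `I = univ`. -/
def fc {T : Type} (C : ∀ i, Set (E i)) (mir : ∀ i, E i → Set T) (I : Set T) : ∀ i, Set (E i) :=
  fun i => {e | e ∈ C i ∧ I ⊆ mir i e}

/-- The union of the walls of the chamber `C` with index in `J`. -/
def un {T : Type} (C : ∀ i, Set (E i)) (mir : ∀ i, E i → Set T) (J : Set T) : ∀ i, Set (E i) :=
  fun i => {e | e ∈ C i ∧ (mir i e ∩ J).Nonempty}

/-- `r` is a bounded chain retraction of the subcomplex `B` to the subcomplex `A`: a chain map which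
is the identity on `A`, and the sums of the absolute values of the entries in every row and column
of its matrix are bounded. -/
structure Retr (B A : ∀ i, Set (E i)) (r : ∀ i, E i → (E i →₀ ℤ)) (m : ℕ) : Prop where
  sub : IsSub bd A
  le : ∀ i, A i ⊆ B i
  supp : ∀ i, ∀ e ∈ B i, ∀ f, r i e f ≠ 0 → f ∈ A i
  id : ∀ i, ∀ e ∈ A i, r i e = Finsupp.single e 1
  chain : ∀ i, ∀ e ∈ B (i + 1),
    ((r (i + 1) e).sum fun f n => n • bd i f) = (bd i e).sum fun f n => n • r i f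
  row : ∀ i, ∀ e ∈ B i, ((r i e).sum fun _ n => |n|) ≤ m
  col : ∀ i f, {e ∈ B i | r i e f ≠ 0}.encard ≤ m

/-- The inherited subcomplexes: the smallest family of subcomplexes which contains the whole
complex and is closed under passing to a face of the chamber of a finite reflection group acting on
an inherited subcomplex (for instance its fixed set), under bounded chain retracts, and under
`A₁ ∩ A₂` if `A₁`, `A₂` and `A₁ ∪ A₂` are inherited. -/
inductive Inh : (∀ i, Set (E i)) → Prop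
  | base : Inh (fun _ => Set.univ)
  | face {T : Type} {M : CoxeterMatrix T} {K : Type} [Group K] (cs : CoxeterSystem M K)
      {B C : ∀ i, Set (E i)} {mir : ∀ i, E i → Set T} {κ : ∀ i, E i → K → E i} (h : Inh B)
      (hR : Refl bd cs B C mir κ) (I : Set T) : Inh (fc C mir I)
  | retract {B A : ∀ i, Set (E i)} {r : ∀ i, E i → (E i →₀ ℤ)} {m : ℕ} (h : Inh B)
      (hr : Retr bd B A r m) : Inh A
  | inter {A₁ A₂ : ∀ i, Set (E i)} (h₁ : Inh A₁) (h₂ : Inh A₂) (h : Inh (fun i => A₁ i ∪ A₂ i)) :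
      Inh (fun i => A₁ i ∩ A₂ i)

end cells

/-! ### The jobs -/

/-- **JOB SEQ.** If the complexes of `A` and of `(A, B)` are exact, then that of `B`.

PROOF. Degree `i + 1`: let `c` be square summable, `δ c = 0` on `B (i + 2)`. Let `c₁ = c` on
`B (i + 1)` and `0` elsewhere, `d = δ c₁` on `A (i + 2)` and `0` elsewhere; `d` is square summable
(`Good.mem` and restriction to a set), `d = 0` on `B (i + 2)` (for `e ∈ B (i + 2)` the faces of `e`
are in `B`, so `δ c₁ (e) = δ c (e) = 0`), and `δ d = δ δ c₁ = 0` on `A (i + 3)` (the faces are in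
`A`). By `ExP A B` in degree `i + 2` there is `b` with `b = 0` on `B (i + 1)` and `d = δ b` on
`A (i + 2)`. So `δ (c₁ - b) = 0` on `A (i + 2)`, and by `ExS A` `c₁ - b = δ c'` on `A (i + 1)`,
hence `c = δ c'` on `B (i + 1)`. Degree `0`: let `δ c = 0` on `B 1`, `c₁`, `d = δ c₁` on `A 1` as
before; `d = δ b` on `A 1` with `b = 0` on `B 0` (degree `1` of `ExP A B`), `δ (c₁ - b) = 0` on
`A 1`, so `c₁ = b` on `A 0` and `c = c₁ = b = 0` on `B 0`. -/
def S_SEQ : Prop :=
  ∀ (E : ℕ → Type) (bd : ∀ i, E (i + 1) → (E i →₀ ℤ)), Good bd → ∀ A B : ∀ i, Set (E i),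
    IsSub bd A → IsSub bd B → (∀ i, B i ⊆ A i) → ExS bd A → ExP bd A B → ExS bd B

/-- **JOB MV.** If the complexes of `A₁`, `A₂`, `A₁ ∪ A₂` are exact, then that of `A₁ ∩ A₂`.

PROOF. Let `F = A₁ ∩ A₂`. Degree `i + 1`: `c` square summable with `δ c = 0` on `F (i + 2)`. Let
`ĉ = c` on `F (i + 1)`, `0` elsewhere, `d = δ ĉ` on `A₁ (i + 2)`, `0` elsewhere. Then `d = 0` on
`A₂ (i + 2)`: for `e ∈ A₁ ∩ A₂` the faces are in `F` and `δ ĉ (e) = δ c (e) = 0`. `δ d = 0` on
`A₁ (i + 3)` (`= δ δ ĉ`) and on `A₂ (i + 3)` (the faces are in `A₂`, where `d = 0`). So `d = δ b` on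
`A₁ ∪ A₂` in degree `i + 2`, `b` square summable. On `A₂ (i + 2)` `δ b = 0`, so `b = δ a` on
`A₂ (i + 1)`. Put `b' = b - δ a` (square summable). `b' = 0` on `A₂ (i + 1)`, `δ b' = δ b = δ ĉ` on
`A₁ (i + 2)`, so `ĉ - b' = δ c'` on `A₁ (i + 1)`, and on `F (i + 1)`: `c = δ c'`. Degree `0`: `ĉ`,
`d = δ ĉ` on `A₁ 1`, `d = δ b` on `(A₁ ∪ A₂) 1`, `δ b = 0` on `A₂ 1`, so `b = 0` on `A₂ 0`;
`δ (ĉ - b) = 0` on `A₁ 1`, so `ĉ = b` on `A₁ 0`, and `c = ĉ = b = 0` on `F 0`. -/
def S_MV : Prop :=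
  ∀ (E : ℕ → Type) (bd : ∀ i, E (i + 1) → (E i →₀ ℤ)), Good bd → ∀ A₁ A₂ : ∀ i, Set (E i),
    IsSub bd A₁ → IsSub bd A₂ → ExS bd A₁ → ExS bd A₂ → ExS bd (fun i => A₁ i ∪ A₂ i) →
    ExS bd (fun i => A₁ i ∩ A₂ i)

/-- **JOB RETR.** Bounded chain retracts.

PROOF. For a square summable `c` on `E i` let `ĉ (e) = ∑_f (r e f) c f` for `e ∈ B i` and `0`
elsewhere. By Cauchy-Schwarz `|ĉ (e)|² ≤ (∑_f |r e f|) (∑_f |r e f| |c f|²) ≤ m ∑_f |r e f| |c f|²`,
and `∑_e |r e f| ≤ m * m` for every `f` (at most `m` nonzero terms, each at most `m` by `row`), so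
`∑_e |ĉ (e)|² ≤ m³ ∑_f |c f|² < ∞` (for instance bound the sums over finite sets `s` of cells `e`,
`memℓp_gen'`/`summable_of_sum_le`). `ĉ = c` on `A i` (`id`). If `δ c = 0` on `A (i + 2)` (`c` in
degree `i + 1`) then for `e ∈ B (i + 2)` (for which the faces are in `B`)
`δ ĉ (e) = ∑_f bd e f ∑_g r f g c g = c (r (∂ e)) = c (∂ (r e)) = ∑_g r e g (δ c) (g) = 0` by
`chain` and `supp`. So `ĉ = δ c'` on `B (i + 1)`, hence `c = δ c'` on `A (i + 1)`. Degree `0` is
similar. -/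
def S_RETR : Prop :=
  ∀ (E : ℕ → Type) (bd : ∀ i, E (i + 1) → (E i →₀ ℤ)) (B A : ∀ i, Set (E i))
    (r : ∀ i, E i → (E i →₀ ℤ)) (m : ℕ), IsSub bd B → Retr bd B A r m → ExS bd B → ExS bd A

/-- **JOB REFL.** Relative exactness of `(C, C^J)` for the chamber `C`.

PROOF. For `J ⊆ T` write `K_J = par cs J`, `J' = Jᶜ`. `K_J ∩ K_J' = 1`
(`Pool.Agent.Q27.Cox.mem_P_iff`, `P cs J` is `par cs J`). Let `ε : K → {1, -1}` be the sign
homomorphism, `ε (s) = -1` (`cs.lengthParity`, or `(-1) ^ cs.length w`). Let `c` be a square summable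
cochain of degree `i`, `c = 0` on `C^J = un C mir J`.
`Φ c (x) = c (e)` if `x = κ e w` with `e ∈ C i`, `mir e ∩ J = ∅`, `w ∈ K_J'`, and `Φ c (x) = 0`
otherwise. By `inj` this is well defined (`e` is determined by `x`) and for `e ∈ C i`, all `w`:
`Φ c (κ e w) = c (e)` if `w ∈ K_J'`, and `0` if not (if `κ e w = κ e w'` with `w' ∈ K_J'`,
`mir e ∩ J = ∅`, then `w⁻¹ w' ∈ K_(mir e) ⊆ K_J'`; if `mir e ∩ J ≠ ∅` then `c (e) = 0`). It is square
summable: for each `w` the map `e ↦ κ e w` is injective on `C i`, and `K` is finite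
(`|Φ c|² ≤ ∑_w |c ∘ (κ · w)⁻¹|²`).
If `δ c = 0` on `C` then `δ (Φ c) = 0` on `B`: for `x = κ e w`, `e ∈ C`,
`δ (Φ c) (x) = ∑_f bd e f Φ c (κ f w)` (`bd_smul`, `Finsupp.sum_mapDomain_index`)
`= [w ∈ K_J'] ∑_f bd e f c (f) = 0` (the faces `f` are in `C`). So by `ExS B` `Φ c = δ b` on `B`,
with `b` square summable (degree `≥ 1`). Let `c' (e) = ∑_(u ∈ K_J) ε (u) b (κ e u)` for `e ∈ C`, `0`
elsewhere: square summable as a finite sum (injectivity of `e ↦ κ e u` on `C`); `c' (e) = 0` if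
`s ∈ mir e ∩ J`, because `κ e (u s) = κ e u` and `ε (u s) = - ε (u)`; and for `e ∈ C (i + 1)`
`δ c' (e) = ∑_u ε (u) ∑_f bd e f b (κ f u) = ∑_u ε (u) (δ b) (κ e u) = ∑_(u ∈ K_J) ε (u) Φ c (κ e u)`,
which is `c (e)` (only `u ∈ K_J ∩ K_J' = 1` contributes; `κ e 1 = e`). Degree `0`: `Φ c = 0` on `B 0`
by `ExS B`, so `c (e) = Φ c (κ e 1) = 0` for `e ∈ C 0`. -/
def S_REFL : Prop :=
  ∀ (E : ℕ → Type) (bd : ∀ i, E (i + 1) → (E i →₀ ℤ)) (T : Type) (M : CoxeterMatrix T) (K : Type)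
    [Group K] (cs : CoxeterSystem M K) (B C : ∀ i, Set (E i)) (mir : ∀ i, E i → Set T)
    (κ : ∀ i, E i → K → E i), Refl bd cs B C mir κ → ExS bd B →
    ∀ J : Set T, ExP bd C (un C mir J)

/-- **JOB FACE** (hypotheses: SEQ, MV, REFL). Inherited subcomplexes are exact.

PROOF. First `Inh A → IsSub bd A` by induction (`base` trivial, `face`: `Refl.sub` and `Refl.face`,
`retract`: `Retr.sub`, `inter` trivial). Then `Inh A → ExS bd A` by induction: `base` is the
hypothesis, `retract` is RETR, `inter` is MV. `face`: `T` is finite (`cs.simple` is injective and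
`K` finite). For `I`, `J ⊆ T` let `D I J = {e ∈ C | I ⊆ mir e, mir e ∩ J ≠ ∅} = un (fc C mir I) mir J`.
Claim: `ExS (D I J)` for all finite `I` and all nonempty `J`. `I = ∅`: `ExS C` is REFL for `J = ∅`
(`un C mir ∅ = ∅`), and `ExS (D ∅ J) = ExS (un C mir J)` by SEQ and REFL. `I ∪ {s}`:
`D (I ∪ {s}) J = D I {s} ∩ D I J` and `D I {s} ∪ D I J = D I (J ∪ {s})`, so MV applies. Finally
`fc C mir ∅ = C`, and `fc C mir (I ∪ {s}) = D I {s}`. All `D I J` and `C` are subcomplexes. -/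
def S_FACE : Prop :=
  ∀ (E : ℕ → Type) (bd : ∀ i, E (i + 1) → (E i →₀ ℤ)), Good bd → ExS bd (fun _ => Set.univ) →
    ∀ A : ∀ i, Set (E i), Inh bd A → ExS bd A

/-- **JOB GOOD.** The cochains of a complex with a free action with finitely many orbits.

PROOF. `sq`: `cob (i + 1) (cob i c) (e) = c (∂ ∂ e)` (linear extension of `c` to `E i →₀ ℤ`), and
`∂ ∂ = 0` by `exact_succ`. `mem`: let `m` be a bound for `∑_f |bd e f|` and for the number of the
`e` with `bd e f ≠ 0` (for every `f`). It exists: by `bd_smul` one has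
`bd (n • e) (n • f) = bd e f`, so the first sum depends only on the orbit of `e`; and for
`f = n • rep b` the number of the `e` with `bd e f ≠ 0` is that of the `e` with
`bd e (rep b) ≠ 0`; these are the `e = k • rep a` with `bd (rep a) (k⁻¹ • rep b) ≠ 0`, finitely many
since the action is free. Then by Cauchy-Schwarz
`|δ c (e)|² ≤ m ∑_f |bd e f| |c f|²` and `∑_e |δ c (e)|² ≤ m³ ∑_f |c f|²` (as in RETR). -/
def S_GOOD : Prop :=
  ∀ (N : Type) [Group N] (U : AcyclicGComplex N),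
    (∀ i (n : N) (e : U.E i), n • e = e → n = 1) →
    ∀ (c : ℕ → ℕ) (rep : ∀ i, Fin (c i) → U.E i),
    (∀ i (e : U.E i), ∃! a, e ∈ MulAction.orbit N (rep i a)) →
    Good (fun i (e : U.E (i + 1)) => U.bd i (Finsupp.single e 1))

/-- **JOB TRANS.** A complex `V` which is isomorphic to an exact subcomplex of `U` is exact.

PROOF. Extend cochains of `V` by `0` to `U` along `ι` (`Function.extend (ι i) c 0`; square summable
since `ι` is injective), and restrict along `ι`: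
`(V.bd i (single e 1)).sum (fun f n => n * c' (ι f)) = cob (ι e)` by `hι` and
`Finsupp.sum_mapDomain_index`. -/
def S_TRANS : Prop :=
  ∀ (N L : Type) [Group N] [Group L] (U : AcyclicGComplex N) (V : AcyclicGComplex L)
    (ι : ∀ i, V.E i → U.E i), (∀ i, Function.Injective (ι i)) →
    (∀ i (e : V.E (i + 1)), U.bd i (Finsupp.single (ι (i + 1) e) 1) =
      (V.bd i (Finsupp.single e 1)).mapDomain (ι i)) →
    ExS (fun i (e : U.E (i + 1)) => U.bd i (Finsupp.single e 1)) (fun i => Set.range (ι i)) →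
    L2Ex V.E (fun i => V.bd i)

/-- **JOB GAP.** Two composable bounded operators with `ker B = im A`, and the range of `B` closed.

PROOF. `im A = ker B` is closed. On the Hilbert space `ker B = im A` the operator
`A* : ker B → H₁` is bounded below: `A : H₁ → ker B` is surjective, so by the open mapping theorem
there is `C > 0` such that every `v ∈ ker B` is `A w` with `‖w‖ ≤ C ‖v‖`, hence
`‖v‖² = ⟪v, A w⟫ = ⟪A* v, w⟫ ≤ C ‖A* v‖ ‖v‖`. In the same way, as `im B` is closed (complete), there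
is `C'` such that every `y ∈ im B` is `B w` with `‖w‖ ≤ C' ‖y‖`; for `v ∈ (ker B)ᗮ` this gives, with
`B v = B w`, `v - w ∈ ker B`, `‖v‖² = ⟪v, w⟫ ≤ ‖v‖ C' ‖B v‖`. Write `v = v₁ + v₂` with
`v₁ ∈ ker B`, `v₂ ∈ (ker B)ᗮ`; `A* v₂ = 0` (`⟪A* v₂, w⟫ = ⟪v₂, A w⟫ = 0`), `B v₁ = 0`. So
`‖v‖² = ‖v₁‖² + ‖v₂‖² ≤ C² ‖A* v‖² + C'² ‖B v‖²`. -/
def S_GAP : Prop :=
  ∀ (H₁ H₂ H₃ : Type) [NormedAddCommGroup H₁] [InnerProductSpace ℂ H₁] [CompleteSpace H₁]
    [NormedAddCommGroup H₂] [InnerProductSpace ℂ H₂] [CompleteSpace H₂]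
    [NormedAddCommGroup H₃] [InnerProductSpace ℂ H₃] [CompleteSpace H₃]
    (A : H₁ →L[ℂ] H₂) (B : H₂ →L[ℂ] H₃),
    (∀ v, B v = 0 ↔ ∃ w, A w = v) → IsClosed (Set.range B) →
    ∃ ε : ℝ, 0 < ε ∧ ∀ v, ε * ‖v‖ ^ 2 ≤ ‖ContinuousLinearMap.adjoint A v‖ ^ 2 + ‖B v‖ ^ 2

/-- **JOB NEU.** The inverse of a positive operator with a gap as a limit of polynomials.

PROOF. Let `D = A A* + B* B`, `c = ‖D‖ + 1`, `R = 1 - c⁻¹ D`. `D` is self-adjoint and
`ε ‖v‖² ≤ ⟪D v, v⟫ ≤ ‖D‖ ‖v‖²`, so `0 ≤ ⟪R v, v⟫ ≤ (1 - ε / c) ‖v‖²`, hence `‖R‖ ≤ 1 - ε / c < 1`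
(the norm of a positive operator is the supremum of `⟪R v, v⟫`, `‖v‖ = 1`; or
`ContinuousLinearMap.IsPositive`, or `‖R v‖² ≤ ‖R‖ ⟪R v, v⟫`, or the Cauchy-Schwarz inequality for
the form `⟪R v, w⟫`). So `X = c⁻¹ ∑_k R ^ k` converges in norm, `D X = X D = 1`. The partial sums
are in the subring `Q`... (see the statement: `Q` is a norm closed set of operators which contains
`1` and `D` and is closed under sums, products and real multiples), so `X ∈ Q`. -/
def S_NEU : Prop :=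
  ∀ (H : Type) [NormedAddCommGroup H] [InnerProductSpace ℂ H] [CompleteSpace H]
    (D : H →L[ℂ] H) (ε : ℝ), 0 < ε → IsSelfAdjoint D →
    (∀ v, ε * ‖v‖ ^ 2 ≤ (inner ℂ (D v) v).re) →
    ∀ Q : Set (H →L[ℂ] H), IsClosed Q → 1 ∈ Q → D ∈ Q → (∀ x ∈ Q, ∀ y ∈ Q, x + y ∈ Q) →
    (∀ x ∈ Q, ∀ y ∈ Q, x * y ∈ Q) → (∀ (a : ℝ), ∀ x ∈ Q, (a : ℂ) • x ∈ Q) →
    ∃ X ∈ Q, D * X = 1 ∧ X * D = 1

/-- **JOB CONV** (hypotheses: RES, GAP, NEU). If the complex of square summable cochains of the free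
cocompact acyclic `N`-complex `U` is exact, then all `H_i(X; C*_r(N))` vanish. This is the converse
of LTWO (file Pool/Agent/Q241/ZD/Ltwo.lean, which contains the dictionary `VV`, `cc`, `act_VV`).

PROOF. Let `X'`, `ψ` be as in RES; it suffices to prove `ExAt X' (toRed N) i` for all `i`
(`Pool.Agent.TH38.ZT.ex_indep`). Let `H i = (L2 N)^(X'.n i)` (`PiLp 2` or `EuclideanSpace`-like
Hilbert sum) and `D i : H i → H (i + 1)`, `D i v = act ((X'.d i).map L) v`. By the dictionary and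
`L2Ex`: `D 0 v = 0 → v = 0` and `D (i + 1) v = 0 ↔ v ∈ im (D i)` (`D (i + 1) D i = 0` from `dd`).
In particular all ranges are closed (kernels of the next operator). With `D (-1) = 0` from the zero
space GAP gives `ε_i` and `Δ_i = D (i-1) D (i-1)* + (D i)* D i` satisfies the hypothesis of NEU.
Let `Q_ij` be the set of the operators `H j → H i` all of whose entries (operators of `L2 N`) are in
`redCstar N`. These sets are norm closed, closed under sums, products, multiples and adjoints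
(`redCstar N` is the closure of the ring generated by the `c • lreg g`, whose adjoints are
`conj c • lreg g⁻¹`), and `D i ∈ Q`. So by NEU the inverse `G_i` of `Δ_i` is in `Q_ii`. Since
`D i Δ_i = D i (D i)* D i = Δ_(i+1) D i` one has `D i G_i = G_(i+1) D i`. Put
`s i = (D i)* G_(i+1) : H (i + 1) → H i`. Then
`s i D i + D (i-1) s (i-1) = (D i)* G_(i+1) D i + D (i-1) (D (i-1))* G_i
= ((D i)* D i + D (i-1) (D (i-1))*) G_i = 1` and `s 0 D 0 = 1` (`i = 0`). The operators `s i` come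
from matrices over `RedC N` (`valR` is injective), and the identities are identities of matrices
over `RedC N`: `s 0 * D 0 = 1`, `D i * s i + s (i + 1) * D (i + 1) = 1`. For a row vector `x` with
`x ᵥ* D i = 0` this gives `x = (x ᵥ* s (i + 1)) ᵥ* D (i + 1)`, which is `ExAt X' (toRed N) (i + 1)`,
and `x = (x ᵥ* s 0) ᵥ* D 0`, which is `ExAt X' (toRed N) 0`. -/
def S_CONV : Prop :=
  ∀ (N : Type) [Group N] (U : AcyclicGComplex N),
    (∀ i (n : N) (e : U.E i), n • e = e → n = 1) →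
    ∀ (c : ℕ → ℕ) (rep : ∀ i, Fin (c i) → U.E i),
    (∀ i (e : U.E i), ∃! a, e ∈ MulAction.orbit N (rep i a)) →
    L2Ex U.E (fun i => U.bd i) → ∀ X : FinRes N, ∀ i, ExAt X (toRed N) i

/-- The integral cochain `z` with finite support is closed. -/
def IsCo {N : Type} [Group N] (V : AcyclicGComplex N) (d : ℕ) (z : V.E d →₀ ℤ) : Prop :=
  ∀ e, ((V.bd d (Finsupp.single e 1)).sum fun f n => n * z f) = 0

/-- The integral cochain `z` with finite support is the coboundary of a cochain with finite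
support. -/
def IsCb {N : Type} [Group N] (V : AcyclicGComplex N) : ∀ d : ℕ, (V.E d →₀ ℤ) → Prop
  | 0, z => z = 0
  | d + 1, z => ∃ y : V.E d →₀ ℤ, ∀ e, z e = (V.bd d (Finsupp.single e 1)).sum fun f n => n * y f

/-- The compactly supported cohomology group `H_c^d(V; ℤ)` is infinite cyclic. -/
def HcZ {N : Type} [Group N] (V : AcyclicGComplex N) (d : ℕ) : Prop :=
  ∃ z₀ : V.E d →₀ ℤ, IsCo V d z₀ ∧ ∀ z : V.E d →₀ ℤ, IsCo V d z → ∃! n : ℤ, IsCb V d (z - n • z₀)

/-- **JOB PDA** (hypothesis: RES). Dimension at most two: `H_c^d(V; ℤ) ≅ ℤ` with `d ≤ 2`.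

PROOF. By `Pool.Agent.H919R4.ZS.main` (file H919R4/ZS/Final.lean, used in the results file
MP_9f173d_gt/DimensionTwo.lean) for `X'` of RES it suffices to show that `X'.cohomology d` is not
trivial, and `ex_indep`/`exAt_iff` give the result for every `X`. Let `z₀` be as in `HcZ`; then `z₀`
is closed and not a coboundary (otherwise `n = 0` and `n = 1` are both possible for `z = z₀`).
Dictionary: for `z : V.E i →₀ ℤ` let `φ z : Fin (X'.n i) → ℤ[N]`,
`(φ z) j = ∑_g z (ψ.symm (g, j)) g⁻¹`. This is a bijection (additive), and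
`X'.cobd i (φ z) = φ (δ z)`: `∑_j d_kj (φ z)_j = ∑_j ∑_h ∑_g d_kj(h) z (g, j) (h g⁻¹)`, and
`(φ (δ z))_k = ∑_m ∑_j ∑_g d_kj(m⁻¹ g) z (g, j) m⁻¹` (`bd` formula of RES), `h = m⁻¹ g`. -/
def S_PDA : Prop :=
  ∀ (N : Type) [Group N] (V : AcyclicGComplex N),
    (∀ i (n : N) (e : V.E i), n • e = e → n = 1) →
    ∀ (c : ℕ → ℕ) (rep : ∀ i, Fin (c i) → V.E i),
    (∀ i (e : V.E i), ∃! a, e ∈ MulAction.orbit N (rep i a)) →
    ∀ d ≤ 2, HcZ V d → ∀ X : FinRes N, ∃ i, Nontrivial (X.homology (toRed N) i)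

/-- **JOB PDB** (hypothesis: RES). Dimension three: `H_c^3(V; ℤ) ≅ ℤ`, and `t ∈ N` of infinite order
such that `⟨t⟩` has infinite index and `t z₀ - z₀` is a coboundary.

PROOF. By `Pool.Agent.H919R4.AS.main` for `X'` of RES, `C = ⟨t⟩ = Subgroup.zpowers t`
(`Pool.Agent.TH38.ZT.amenable_zpowers`) it suffices to show that `cohomologyZ X' (N ⧸ C) 2` is not
trivial. For `z : V.E i →₀ ℤ` let `P z : Fin (X'.n i) → (N ⧸ C →₀ ℤ)`,
`(P z) j = ∑_g z (ψ.symm (g, j)) [g⁻¹ C]`. Then (1) `P` is additive and onto, and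
`cobdZ X' (N ⧸ C) i (P z) = P (δ z)` (computation as in PDA with `ringZ`); here `δ z` has finite
support. (2) The kernel of `P` is `{t w - w | w}`, `(t w) (e) = w (t⁻¹ • e)`: `P (t w) = P w`
because `(t g)⁻¹ C = g⁻¹ t⁻¹ C = g⁻¹ C`; conversely, modulo the elements `t w - w` every `z` is
equivalent to one supported on a set of representatives of the `C`-orbits on `V.E i` (the action is
free), and on these `P` is injective. Let `t z₀ - z₀ = δ y`, `y : V.E 2 →₀ ℤ`. Then
`cobdZ (P y) = P (δ y) = P (t z₀ - z₀) = 0`. If `P y = cobdZ (x)`, write `x = P x̃`,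
`P (y - δ x̃) = 0`, so `y - δ x̃ = t w - w`, `t z₀ - z₀ = δ y = t δ w - δ w`, so `z₀ - δ w` is
invariant under `t`; it has finite support and `t` has infinite order and acts freely, so
`z₀ = δ w`, which contradicts the uniqueness in `HcZ` (`n = 0` and `n = 1` for `z = z₀`). -/
def S_PDB : Prop :=
  ∀ (N : Type) [Group N] (V : AcyclicGComplex N),
    (∀ i (n : N) (e : V.E i), n • e = e → n = 1) →
    ∀ (c : ℕ → ℕ) (rep : ∀ i, Fin (c i) → V.E i),
    (∀ i (e : V.E i), ∃! a, e ∈ MulAction.orbit N (rep i a)) →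
    ∀ (z₀ : V.E 3 →₀ ℤ) (t : N), ¬ IsOfFinOrder t → Infinite (N ⧸ Subgroup.zpowers t) →
    ¬ IsCb V 3 z₀ → IsCb V 3 (z₀.mapDomain (fun e => t • e) - z₀) →
    ∀ X : FinRes N, ∃ i, Nontrivial (X.homology (toRed N) i)

/-- **JOB AMEN.** A group with a cyclic subgroup of finite index.

PROOF. Such a group is amenable in the sense of `Pool.Agent.H496R3.ZS.IsAmenable` (Foelner
condition): let `C = ⟨t⟩` have finite index (`t` of infinite order or not), `R` a finite set with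
`G = ⋃_(r ∈ R) r C`... if `G` is finite take `F = G`. If not, `t` has infinite order and
`F = {r t^i | r ∈ R, 0 ≤ i < n}` (left cosets `r C`): for `s ∈ S` and `r ∈ R` one has
`s r = r' t^a` with `r' ∈ R`, `|a| ≤ A(S)`, so `s F △ F` has at most `2 |R| A` elements, and
`|F| = |R| n`. Then apply `Pool.Agent.H919R4.AS.van_of_homology` (file H919R4/AS/Ext.lean, see the
proof of `coset` in H919R4/AS/Final.lean) with `C = ⊤` and the trivial multiplier: if all
`X.homology (toRed G) i` were trivial, then there would be no nonzero invariant element of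
`ℓ²(G ⧸ ⊤)`; but `G ⧸ ⊤` is one point, and the constant function `1` on it is invariant (the lemma
`H0` in H919R4/AS). -/
def S_AMEN : Prop :=
  ∀ (G : Type) [Group G] (t : G), Finite (G ⧸ Subgroup.zpowers t) →
    ∀ X : FinRes G, ∃ i, Nontrivial (X.homology (toRed G) i)

end

end Pool.Agent.Q169.FT
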